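import Mathlib
import Pool.Agent.Lib.MP_7eef47_al.Product

set_option autoImplicit false

namespace Pool.Agent.Lib.MP_7eef47_al

namespace TreeLen
variable {G : Type} [Group G] (L : TreeLen G)

theorem d_one (g : G) : L.d 1 g = L.len g := by simp [d]

theorem lower_unique (w v u u' : G) (n : ℕ) (h : L.d w v = n + 1) (h1 : L.d w u = 1)
    (h2 : L.d w u' = 1) (h3 : L.d u v = n) (h4 : L.d u' v = n) : L.d u u' = 0 := by
  have f := L.d_four w v u u'
  rw [L.d_comm v u', L.d_comm v u] at f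
  omega

theorem len_pow_of_sq (b : G) (h1 : L.len b = 1) (h2 : L.len (b ^ 2) = 2) (n : ℕ) :
    L.len (b ^ n) = n := by
  have key : ∀ n : ℕ, L.len (b ^ n) = n ∧ L.len (b ^ (n + 1)) = n + 1 := by
    intro n
    induction n with
    | zero => exact ⟨by simpa using L.len_one, by simpa using h1⟩
    | succ n ih =>
      refine ⟨ih.2, ?_⟩
      rcases Nat.eq_zero_or_pos n with rfl | hn
      · exact h2
      · have f := L.d_four 1 (b ^ (n + 1)) b (b ^ (n + 2))
        have e1 : L.d 1 (b ^ (n + 1)) = n + 1 := by rw [d_one, ih.2]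
        have e2 : L.d b (b ^ (n + 2)) = n + 1 := by
          rw [d, show b⁻¹ * b ^ (n + 2) = b ^ (n + 1) by group, ih.2]
        have e3 : L.d 1 b = 1 := by rw [d_one, h1]
        have e4 : L.d (b ^ (n + 1)) (b ^ (n + 2)) = 1 := by
          rw [d, show (b ^ (n + 1))⁻¹ * b ^ (n + 2) = b by group, h1]
        have e5 : L.d (b ^ (n + 1)) b = n := by
          rw [d_comm, d, show b⁻¹ * b ^ (n + 1) = b ^ n by group, ih.1]
        have e6 : L.d 1 (b ^ (n + 2)) = L.len (b ^ (n + 1 + 1)) := by rw [d_one]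
        have e7 := L.len_mul (b ^ (n + 1)) b
        rw [← pow_succ] at e7
        omega
  exact (key n).1

theorem d_map (σ : G →* G) (h : ∀ g, L.len (σ g) = L.len g) (x y : G) :
    L.d (σ x) (σ y) = L.d x y := by
  rw [d, d, ← h (x⁻¹ * y), map_mul, map_inv]

/-- a triple `u, σ u, σ σ u` of commuting elements with product one -/
theorem triple_len (σ : G →* G) (h : ∀ g, L.len (σ g) = L.len g) (u : G)
    (hc : Commute u (σ u)) (ht : σ (σ u) = (u * σ u)⁻¹) : L.len (u⁻¹ * σ u) ≤ L.len u := by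
  have f := L.d_four 1 (u * σ u) u (σ u)
  have e1 : L.d 1 (u * σ u) = L.len u := by
    rw [d_one, ← L.len_inv, ← ht, h, h]
  have e2 : L.d 1 u = L.len u := L.d_one u
  have e3 : L.d 1 (σ u) = L.len u := by rw [d_one, h]
  have e4 : L.d (u * σ u) (σ u) = L.len u := by
    rw [d_comm, d, hc.eq, inv_mul_cancel_left]
  have e5 : L.d (u * σ u) u = L.len u := by
    rw [d_comm, d, inv_mul_cancel_left, h]
  have e6 : L.d u (σ u) = L.len (u⁻¹ * σ u) := rfl
  omega

theorem triple_cube (σ : G →* G) (h3 : ∀ g, σ (σ (σ g)) = g) (h : ∀ g, L.len (σ g) = L.len g)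
    (u : G) (hc : Commute u (σ u)) (ht : σ (σ u) = (u * σ u)⁻¹) : L.len (u ^ 3) ≤ L.len u := by
  have a := L.triple_len σ h u hc ht
  have e1 : σ (u⁻¹ * σ u) = (σ u)⁻¹ * (u * σ u)⁻¹ := by rw [map_mul, map_inv, ht]
  have b := L.triple_len σ h (u⁻¹ * σ u) (by
    rw [e1]
    exact ((hc.inv_left.mul_left (Commute.refl _)).inv_right).mul_right
      ((((Commute.refl u).inv_left.mul_left hc.symm).mul_right
        (hc.inv_left.mul_left (Commute.refl _))).inv_right)) (by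
    rw [map_mul, map_mul, map_inv, map_inv, h3, ht]
    group)
  have e2 : (u⁻¹ * σ u)⁻¹ * σ (u⁻¹ * σ u) = (σ (u ^ 3))⁻¹ := by
    rw [e1, map_pow, mul_inv_rev, mul_inv_rev, inv_inv]
    have : u * (σ u)⁻¹ = (σ u)⁻¹ * u := hc.inv_right.eq
    calc (σ u)⁻¹ * u * ((σ u)⁻¹ * ((σ u)⁻¹ * u⁻¹))
        = (σ u)⁻¹ * (u * (σ u)⁻¹) * (σ u)⁻¹ * u⁻¹ := by group
      _ = (σ u)⁻¹ * ((σ u)⁻¹ * u) * (σ u)⁻¹ * u⁻¹ := by rw [this]
      _ = (σ u)⁻¹ * (σ u)⁻¹ * (u * (σ u)⁻¹) * u⁻¹ := by group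
      _ = (σ u)⁻¹ * (σ u)⁻¹ * ((σ u)⁻¹ * u) * u⁻¹ := by rw [this]
      _ = (σ u ^ 3)⁻¹ := by group
  rw [e2, L.len_inv, h] at b
  omega

theorem triple_pow (σ : G →* G) (h3 : ∀ g, σ (σ (σ g)) = g) (h : ∀ g, L.len (σ g) = L.len g)
    (u : G) (hc : Commute u (σ u)) (ht : σ (σ u) = (u * σ u)⁻¹) (k : ℕ) :
    L.len (u ^ 3 ^ k) ≤ L.len u := by
  induction k with
  | zero => simp
  | succ k ih =>
    have a := L.triple_cube σ h3 h (u ^ 3 ^ k) (by rw [map_pow]; exact hc.pow_pow _ _) (by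
      rw [map_pow, map_pow, ht, ← hc.mul_pow, inv_pow])
    rw [← pow_mul, ← pow_succ] at a
    omega

/-- Two geodesic rays with different first steps. -/
theorem far (σ : G →* G) (h : ∀ g, L.len (σ g) = L.len g) (b : G) (hb : ∀ n, L.len (b ^ n) = n)
    (hs : L.d b (σ b) ≠ 0) (n : ℕ) (x : G) (hx : σ x = x) : n ≤ L.d (b ^ n) x := by
  rcases n with _ | n
  · omega
  have e1 : L.d 1 (b ^ (n + 1)) = n + 1 := by rw [d_one, hb]
  have e2 : L.d 1 (σ (b ^ (n + 1))) = n + 1 := by rw [d_one, h, hb]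
  have e3 : L.d 1 b = 1 := by rw [d_one]; simpa using hb 1
  have e4 : L.d 1 (σ b) = 1 := by rw [d_one, h]; simpa using hb 1
  have e5 : L.d b (b ^ (n + 1)) = n := by
    rw [d, show b⁻¹ * b ^ (n + 1) = b ^ n by group, hb]
  have e6 : L.d (σ b) (σ (b ^ (n + 1))) = n := by rw [L.d_map σ h, e5]
  have e7 : L.d b (σ (b ^ (n + 1))) ≠ n := fun e =>
    hs (L.lower_unique 1 _ _ _ n e2 e3 e4 e e6)
  have p := L.d_par 1 b (σ (b ^ (n + 1)))
  have t := L.d_tri 1 b (σ (b ^ (n + 1)))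
  have f := L.d_four 1 (b ^ (n + 1)) b (σ (b ^ (n + 1)))
  have c := L.d_comm b (b ^ (n + 1))
  have t2 := L.d_tri (b ^ (n + 1)) x (σ (b ^ (n + 1)))
  have e8 : L.d x (σ (b ^ (n + 1))) = L.d (b ^ (n + 1)) x := by
    rw [L.d_comm (b ^ (n + 1)) x, ← L.d_map σ h x (b ^ (n + 1)), hx]
  omega

end TreeLen

namespace ProdData

variable {G : Type} [Group G] {S : Set G} (P : ProdData G S)

/-- the action on the vertices of the product is free -/
def Free : Prop := ∀ g, P.L1.len g = 0 → P.L2.len g = 0 → g = 1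

theorem Free.ext {P : ProdData G S} (hP : P.Free) {x y : G} (h1 : P.L1.d x y = 0)
    (h2 : P.L2.d x y = 0) : x = y :=
  inv_mul_eq_one.mp (hP _ h1 h2)

theorem step1' (g : G) (n : ℕ) (h : P.L1.len g = n + 1) :
    ∃ s ∈ S, P.L1.len s = 1 ∧ P.L2.len s = 0 ∧ P.L1.len (s⁻¹ * g) = n := by
  obtain ⟨s, hs, h1, h2⟩ := P.step1 g n h
  have a := P.gen_le s hs
  have b := P.L1.len_mul s (s⁻¹ * g)
  rw [mul_inv_cancel_left] at b
  exact ⟨s, hs, by omega, h1, h2⟩

theorem step2' (g : G) (n : ℕ) (h : P.L2.len g = n + 1) :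
    ∃ s ∈ S, P.L2.len s = 1 ∧ P.L1.len s = 0 ∧ P.L2.len (s⁻¹ * g) = n := by
  obtain ⟨s, hs, h1, h2⟩ := P.step2 g n h
  have a := P.gen_le s hs
  have b := P.L2.len_mul s (s⁻¹ * g)
  rw [mul_inv_cancel_left] at b
  exact ⟨s, hs, by omega, h1, h2⟩

theorem step_sum (g : G) (n : ℕ) (h : P.L1.len g + P.L2.len g = n + 1) :
    ∃ s ∈ S, P.L1.len s + P.L2.len s = 1 ∧ P.L1.len (s⁻¹ * g) + P.L2.len (s⁻¹ * g) = n := by
  rcases Nat.eq_zero_or_pos (P.L1.len g) with h1 | h1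
  · obtain ⟨s, hs, a, b, c⟩ := P.step2' g n (by omega)
    have := P.L1.len_mul_zero_left s g b
    exact ⟨s, hs, by omega, by omega⟩
  · obtain ⟨s, hs, a, b, c⟩ := P.step1' g (P.L1.len g - 1) (by omega)
    have := P.L2.len_mul_zero_left s g b
    exact ⟨s, hs, by omega, by omega⟩

theorem mem_S (hP : P.Free) (g : G) (h : P.L1.len g + P.L2.len g = 1) : g ∈ S := by
  obtain ⟨s, hs, -, h2⟩ := P.step_sum g 0 h
  have := hP (s⁻¹ * g) (by omega) (by omega)
  rw [inv_mul_eq_one] at this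
  exact this ▸ hs

theorem ball_finite (hS : S.Finite) (n : ℕ) : {g | P.L1.len g + P.L2.len g ≤ n}.Finite := by
  induction n with
  | zero => exact hS.subset fun g hg => P.base g (by simp at hg; omega) (by simp at hg; omega)
  | succ n ih =>
    refine (ih.union (hS.image2 (· * ·) ih)).subset fun g hg => ?_
    simp only [Set.mem_ofPred_eq] at hg
    by_cases h : P.L1.len g + P.L2.len g ≤ n
    · exact Or.inl h
    · obtain ⟨s, hs, -, h2⟩ := P.step_sum g n (by omega)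
      exact Or.inr ⟨s, hs, s⁻¹ * g, h2.le, by simp⟩

theorem adj_iff (hP : P.Free) (x y : G) :
    (SimpleGraph.mulCayley S).Adj x y ↔ P.L1.d x y + P.L2.d x y = 1 := by
  rw [SimpleGraph.mulCayley_adj]
  constructor
  · rintro ⟨hne, h⟩
    have c : P.L1.d x y + P.L2.d x y ≤ 1 := by
      rcases h with h | h
      · exact P.gen_le _ h
      · rw [P.L1.d_comm, P.L2.d_comm]; exact P.gen_le _ h
    by_contra hc
    exact hne (hP.ext (by omega) (by omega))
  · intro h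
    refine ⟨?_, Or.inl (P.mem_S hP _ h)⟩
    rintro rfl
    simp [TreeLen.d_self] at h

theorem dist_eq (hP : P.Free) (x y : G) :
    (SimpleGraph.mulCayley S).dist x y = P.L1.d x y + P.L2.d x y := by
  refine le_antisymm ?_ (P.le_dist x y)
  have key : ∀ n : ℕ, ∀ x : G, P.L1.d x y + P.L2.d x y = n →
      ∃ p : (SimpleGraph.mulCayley S).Walk x y, p.length = n := by
    intro n
    induction n with
    | zero =>
      intro x h
      obtain rfl : x = y := hP.ext (by omega) (by omega)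
      exact ⟨SimpleGraph.Walk.nil, rfl⟩
    | succ n ih =>
      intro x h
      obtain ⟨s, -, h1, h2⟩ := P.step_sum (x⁻¹ * y) n h
      obtain ⟨p, hp⟩ := ih (x * s) (by simpa [TreeLen.d, mul_assoc] using h2)
      exact ⟨SimpleGraph.Walk.cons ((P.adj_iff hP x (x * s)).mpr (by simpa [TreeLen.d] using h1)) p,
        by simp [hp]⟩
  obtain ⟨p, hp⟩ := key _ x rfl
  exact hp ▸ SimpleGraph.dist_le p

theorem len1_pow (hP : P.Free) (tf : ∀ g : G, IsOfFinOrder g → g = 1) (b : G)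
    (h1 : P.L1.len b = 1) (h2 : P.L2.len b = 0) (n : ℕ) : P.L1.len (b ^ n) = n := by
  refine P.L1.len_pow_of_sq b h1 ?_ n
  have a := P.L1.parity b b
  have c := P.L1.len_mul b b
  rw [← sq] at a c
  by_contra hc
  have := hP (b ^ 2) (by omega) (P.L2.len_pow_zero b h2 2)
  have e := tf b (isOfFinOrder_iff_pow_eq_one.mpr ⟨2, by norm_num, this⟩)
  rw [e, P.L1.len_one] at h1
  omega

theorem len2_pow (hP : P.Free) (tf : ∀ g : G, IsOfFinOrder g → g = 1) (b : G)
    (h1 : P.L2.len b = 1) (h2 : P.L1.len b = 0) (n : ℕ) : P.L2.len (b ^ n) = n := by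
  refine P.L2.len_pow_of_sq b h1 ?_ n
  have a := P.L2.parity b b
  have c := P.L2.len_mul b b
  rw [← sq] at a c
  by_contra hc
  have := hP (b ^ 2) (P.L1.len_pow_zero b h2 2) (by omega)
  have e := tf b (isOfFinOrder_iff_pow_eq_one.mpr ⟨2, by norm_num, this⟩)
  rw [e, P.L2.len_one] at h1
  omega

section fix

variable (σ : G →* G)

/-- the subgroup of fixed points -/
def fixSub (σ : G →* G) : Subgroup G := σ.eqLocus (MonoidHom.id G)

theorem mem_fixSub (g : G) : g ∈ fixSub σ ↔ σ g = g := Iff.rfl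

theorem fix_malnormal (hS : S.Finite) (tf : ∀ g : G, IsOfFinOrder g → g = 1)
    (ct : ∀ x y z : G, x ≠ 1 → Commute x y → Commute x z → Commute y z)
    (h3 : ∀ g, σ (σ (σ g)) = g) (h1 : ∀ g, P.L1.len (σ g) = P.L1.len g)
    (h2 : ∀ g, P.L2.len (σ g) = P.L2.len g)
    (g : G) (hg : g ∉ fixSub σ) (x : G) (hx : x ∈ fixSub σ) (hc : g⁻¹ * x * g ∈ fixSub σ) :
    x = 1 := by
  by_contra hx1
  rw [mem_fixSub] at hg hx hc
  rw [map_mul, map_mul, map_inv, hx] at hc
  have c0 : Commute x (σ g * g⁻¹) := by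
    have : x * (σ g * g⁻¹) = σ g * ((σ g)⁻¹ * x * σ g) * g⁻¹ := by group
    rw [Commute, SemiconjBy, this, hc]
    group
  have c1 : Commute x (σ (σ g * g⁻¹)) := by
    have := c0.map σ
    rwa [hx] at this
  have c2 := ct x _ _ hx1 c0 c1
  have t : σ (σ (σ g * g⁻¹)) = (σ g * g⁻¹ * σ (σ g * g⁻¹))⁻¹ := by
    rw [c2.eq]
    simp only [map_mul, map_inv, h3]
    group
  have b1 := P.L1.triple_pow σ h3 h1 _ c2 t
  have b2 := P.L2.triple_pow σ h3 h2 _ c2 t
  obtain ⟨i, j, hij, e⟩ := (P.ball_finite hS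
    (P.L1.len (σ g * g⁻¹) + P.L2.len (σ g * g⁻¹))).exists_lt_map_eq_of_forall_mem
    (f := fun k : ℕ => (σ g * g⁻¹) ^ 3 ^ k) (fun k => add_le_add (b1 k) (b2 k))
  have lt : 3 ^ i < 3 ^ j := Nat.pow_lt_pow_right (by norm_num) hij
  have fin : IsOfFinOrder (σ g * g⁻¹) := by
    refine isOfFinOrder_iff_pow_eq_one.mpr ⟨3 ^ j - 3 ^ i, by omega, ?_⟩
    rw [pow_sub _ lt.le, ← e, mul_inv_cancel]
  exact hg (mul_inv_eq_one.mp (tf _ fin))

theorem fix_step1 (hP : P.Free) (h1 : ∀ g, P.L1.len (σ g) = P.L1.len g)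
    (h2 : ∀ g, P.L2.len (σ g) = P.L2.len g) (g : G) (hg : σ g = g) (n : ℕ)
    (h : P.L1.len g = n + 1) :
    ∃ s ∈ S, σ s = s ∧ P.L1.len s = 1 ∧ P.L2.len s = 0 ∧ P.L1.len (s⁻¹ * g) = n := by
  obtain ⟨s, hs, a, b, c⟩ := P.step1' g n h
  refine ⟨s, hs, hP.ext ?_ ?_, a, b, c⟩
  · refine P.L1.lower_unique 1 g _ _ n (by rw [TreeLen.d_one, h]) (by rw [TreeLen.d_one, h1, a])
      (by rw [TreeLen.d_one, a]) ?_ c
    rw [← hg, P.L1.d_map σ h1]
    exact c
  · have := P.L2.len_mul (σ s)⁻¹ s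
    rw [P.L2.len_inv, h2, b] at this
    exact Nat.le_zero.mp this

theorem fix_step2 (hP : P.Free) (h1 : ∀ g, P.L1.len (σ g) = P.L1.len g)
    (h2 : ∀ g, P.L2.len (σ g) = P.L2.len g) (g : G) (hg : σ g = g) (n : ℕ)
    (h : P.L2.len g = n + 1) :
    ∃ s ∈ S, σ s = s ∧ P.L2.len s = 1 ∧ P.L1.len s = 0 ∧ P.L2.len (s⁻¹ * g) = n := by
  obtain ⟨s, hs, a, b, c⟩ := P.step2' g n h
  refine ⟨s, hs, hP.ext ?_ ?_, a, b, c⟩
  · have := P.L1.len_mul (σ s)⁻¹ s
    rw [P.L1.len_inv, h1, b] at this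
    exact Nat.le_zero.mp this
  · refine P.L2.lower_unique 1 g _ _ n (by rw [TreeLen.d_one, h]) (by rw [TreeLen.d_one, h2, a])
      (by rw [TreeLen.d_one, a]) ?_ c
    rw [← hg, P.L2.d_map σ h2]
    exact c

/-- the product structure on the subgroup of fixed points -/
def fixData (hP : P.Free) (h1 : ∀ g, P.L1.len (σ g) = P.L1.len g)
    (h2 : ∀ g, P.L2.len (σ g) = P.L2.len g) :
    ProdData (fixSub σ) {h : fixSub σ | (h : G) ∈ S} where
  L1 :=
    { len := fun g => P.L1.len g.1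
      len_one := P.L1.len_one
      len_inv := fun g => P.L1.len_inv g.1
      len_mul := fun g h => P.L1.len_mul g.1 h.1
      step := fun g n h => by
        obtain ⟨s, -, a, b, -, c⟩ := P.fix_step1 σ hP h1 h2 g.1 g.2 n h
        exact ⟨⟨s, a⟩, b, c⟩
      parity := fun g h => P.L1.parity g.1 h.1
      four := fun a b c => P.L1.four a.1 b.1 c.1 }
  L2 :=
    { len := fun g => P.L2.len g.1
      len_one := P.L2.len_one
      len_inv := fun g => P.L2.len_inv g.1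
      len_mul := fun g h => P.L2.len_mul g.1 h.1
      step := fun g n h => by
        obtain ⟨s, -, a, b, -, c⟩ := P.fix_step2 σ hP h1 h2 g.1 g.2 n h
        exact ⟨⟨s, a⟩, b, c⟩
      parity := fun g h => P.L2.parity g.1 h.1
      four := fun a b c => P.L2.four a.1 b.1 c.1 }
  gen_le s hs := P.gen_le s.1 hs
  step1 g n h := by
    obtain ⟨s, hs, a, -, b, c⟩ := P.fix_step1 σ hP h1 h2 g.1 g.2 n h
    exact ⟨⟨s, a⟩, hs, b, c⟩
  step2 g n h := by
    obtain ⟨s, hs, a, -, b, c⟩ := P.fix_step2 σ hP h1 h2 g.1 g.2 n h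
    exact ⟨⟨s, a⟩, hs, b, c⟩
  base g a b := P.base g.1 a b

theorem fixData_free (hP : P.Free) (h1 : ∀ g, P.L1.len (σ g) = P.L1.len g)
    (h2 : ∀ g, P.L2.len (σ g) = P.L2.len g) : (P.fixData σ hP h1 h2).Free :=
  fun g a b => Subtype.ext (hP g.1 a b)

theorem fix_fg (hS : S.Finite) (hP : P.Free) (h1 : ∀ g, P.L1.len (σ g) = P.L1.len g)
    (h2 : ∀ g, P.L2.len (σ g) = P.L2.len g) : (fixSub σ).FG :=
  (Group.fg_iff_subgroup_fg _).mp (Group.fg_iff.mpr ⟨_, (P.fixData σ hP h1 h2).closure_eq_top,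
    Set.Finite.preimage (f := (Subtype.val : fixSub σ → G)) Subtype.val_injective.injOn hS⟩)

theorem fix_convex (hP : P.Free) (h1 : ∀ g, P.L1.len (σ g) = P.L1.len g)
    (h2 : ∀ g, P.L2.len (σ g) = P.L2.len g) (x : G) (hx : x ∈ fixSub σ) (y : G)
    (hy : y ∈ fixSub σ) (z : G) (h : wordDist S x z + wordDist S z y = wordDist S x y) :
    z ∈ fixSub σ := by
  rw [mem_fixSub] at hx hy ⊢
  unfold wordDist at h
  rw [P.dist_eq hP, P.dist_eq hP, P.dist_eq hP] at h
  have h' : P.L1.d x z + P.L2.d x z + (P.L1.d z y + P.L2.d z y) = P.L1.d x y + P.L2.d x y := by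
    exact_mod_cast h
  have key : ∀ L : TreeLen G, (∀ g, L.len (σ g) = L.len g) → L.d x z + L.d z y ≤ L.d x y →
      L.d (σ z) z = 0 := by
    intro L hL h
    have f := L.d_four x y (σ z) z
    have e1 : L.d x (σ z) = L.d x z := by rw [← L.d_map σ hL x z, hx]
    have e2 : L.d y (σ z) = L.d y z := by rw [← L.d_map σ hL y z, hy]
    have c := L.d_comm y z
    omega
  have t1 := P.L1.d_tri x z y
  have t2 := P.L2.d_tri x z y
  exact hP.ext (key _ h1 (by omega)) (key _ h2 (by omega))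

end fix

theorem not_sqc_far (hP : P.Free) (H : Subgroup G)
    (a : G) (ha : a ∈ H) (ha1 : P.L1.len a = 0) (ha2 : ∀ n, P.L2.len (a ^ n) = n)
    (b : G) (hb1 : ∀ n, P.L1.len (b ^ n) = n) (hb : ∀ n, ∀ h ∈ H, n ≤ P.L1.d (b ^ n) h) :
    ¬ StronglyQuasiconvex S H := by
  intro hq
  obtain ⟨M, hM⟩ := hq 3 2 (by norm_num) (by norm_num)
  obtain ⟨n, hn⟩ := exists_nat_gt M
  choose x hx1 hx2 using fun s t : ℕ => P.realize (b ^ s) (a ^ t)
  let σ : ℕ → ℕ := fun m => min (min m n) (3 * n - m)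
  let τ : ℕ → ℕ := fun m => min (m - n) n
  let γ : ℝ → G := fun r => x (σ ⌊r⌋₊) (τ ⌊r⌋₊)
  have d1 : ∀ s t s' t', (P.L1.d (x s t) (x s' t') : ℤ) = |(s : ℤ) - s'| := by
    intro s t s' t'
    rw [P.L1.d_congr _ _ _ _ (hx1 s t) (hx1 s' t'), P.L1.d_pow b hb1]
  have d2 : ∀ s t s' t', (P.L2.d (x s t) (x s' t') : ℤ) = |(t : ℤ) - t'| := by
    intro s t s' t'
    rw [P.L2.d_congr _ _ _ _ (hx2 s t) (hx2 s' t'), P.L2.d_pow a ha2]
  have memH : ∀ t, x 0 t ∈ H := by
    intro t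
    have h1 := hx1 0 t
    have h2 := hx2 0 t
    have h3 := P.L1.len_pow_zero a ha1 t
    have h4 : P.L1.len ((x 0 t)⁻¹ * a ^ t) = 0 := by
      have := P.L1.len_mul (x 0 t)⁻¹ (a ^ t)
      simp only [TreeLen.d, pow_zero, mul_one] at h1
      omega
    rw [hP.ext (x := x 0 t) (y := a ^ t) h4 h2]
    exact H.pow_mem ha t
  have hqg : IsQuasiGeodesic S 3 2 γ 0 (3 * n) := by
    refine ⟨by positivity, fun s hs t ht => ?_⟩
    have hs' : ⌊s⌋₊ ≤ 3 * n := Nat.floor_le_of_le (by exact_mod_cast hs.2)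
    have ht' : ⌊t⌋₊ ≤ 3 * n := Nat.floor_le_of_le (by exact_mod_cast ht.2)
    have f1 := Nat.floor_le hs.1
    have f2 := Nat.lt_floor_add_one s
    have f3 := Nat.floor_le ht.1
    have f4 := Nat.lt_floor_add_one t
    have w1 := P.wordDist_le (γ s) (γ t)
    have w2 := P.le_wordDist (γ s) (γ t)
    have e1 := d1 (σ ⌊s⌋₊) (τ ⌊s⌋₊) (σ ⌊t⌋₊) (τ ⌊t⌋₊)
    have e2 := d2 (σ ⌊s⌋₊) (τ ⌊s⌋₊) (σ ⌊t⌋₊) (τ ⌊t⌋₊)
    change (P.L1.d (γ s) (γ t) : ℤ) = _ at e1
    change (P.L2.d (γ s) (γ t) : ℤ) = _ at e2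
    generalize P.L1.d (γ s) (γ t) = D1 at *
    generalize P.L2.d (γ s) (γ t) = D2 at *
    generalize ⌊s⌋₊ = m at *
    generalize ⌊t⌋₊ = m' at *
    have k : (D1 + D2 + m' ≤ m ∧ m ≤ 3 * (D1 + D2) + m') ∨
        (D1 + D2 + m ≤ m' ∧ m' ≤ 3 * (D1 + D2) + m) := by
      simp only [σ, τ] at e1 e2
      rcases abs_cases (((min (min m n) (3 * n - m) : ℕ) : ℤ) - (min (min m' n) (3 * n - m') : ℕ))
        with ⟨c1, c2⟩ | ⟨c1, c2⟩ <;>
      rcases abs_cases (((min (m - n) n : ℕ) : ℤ) - (min (m' - n) n : ℕ))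
        with ⟨c3, c4⟩ | ⟨c3, c4⟩ <;>
      rw [c1] at e1 <;> rw [c3] at e2 <;> omega
    rcases k with ⟨k1, k2⟩ | ⟨k1, k2⟩
    · have k1' : (D1 : ℝ) + D2 + m' ≤ m := by exact_mod_cast k1
      have k2' : (m : ℝ) ≤ 3 * (D1 + D2) + m' := by exact_mod_cast k2
      have h0 : (0 : ℝ) ≤ D1 + D2 := by positivity
      rcases abs_cases (s - t) with ⟨c1, c2⟩ | ⟨c1, c2⟩ <;> rw [c1] <;> constructor <;> linarith
    · have k1' : (D1 : ℝ) + D2 + m ≤ m' := by exact_mod_cast k1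
      have k2' : (m' : ℝ) ≤ 3 * (D1 + D2) + m := by exact_mod_cast k2
      have h0 : (0 : ℝ) ≤ D1 + D2 := by positivity
      rcases abs_cases (s - t) with ⟨c1, c2⟩ | ⟨c1, c2⟩ <;> rw [c1] <;> constructor <;> linarith
  have g0 : γ 0 ∈ H := by
    have : γ 0 = x 0 0 := by simp [γ, σ, τ]
    rw [this]; exact memH 0
  have g1 : γ (3 * n) ∈ H := by
    have e : ⌊(3 * n : ℝ)⌋₊ = 3 * n := by exact_mod_cast Nat.floor_natCast (R := ℝ) (3 * n)
    have : γ (3 * n) = x 0 (τ (3 * n)) := by simp [γ, σ, e]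
    rw [this]; exact memH _
  obtain ⟨h, hh, hd⟩ := hM γ 0 (3 * n) hqg g0 g1 n
    ⟨Nat.cast_nonneg _, by have : (0 : ℝ) ≤ n := Nat.cast_nonneg _; linarith⟩
  have e : γ n = x n 0 := by
    have : σ n = n := by simp only [σ]; omega
    simp [γ, this, τ]
  rw [e] at hd
  have w := P.le_wordDist (x n 0) h
  have z2 := P.L1.d_congr _ _ _ _ (hx1 n 0) (P.L1.d_self h)
  have z4 : (n : ℝ) ≤ P.L1.d (x n 0) h := by
    rw [z2]
    exact_mod_cast hb n h hh
  have : (0 : ℝ) ≤ P.L2.d (x n 0) h := Nat.cast_nonneg _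
  linarith

/-- exchange the two trees -/
def swap : ProdData G S where
  L1 := P.L2
  L2 := P.L1
  gen_le s hs := by have := P.gen_le s hs; omega
  step1 := P.step2
  step2 := P.step1
  base g a b := P.base g b a

theorem Free.swap {P : ProdData G S} (hP : P.Free) : P.swap.Free := fun g a b => hP g b a

/-- the first tree as a graph -/
def tree : SimpleGraph {g : G // P.L2.len g = 0} where
  Adj u v := P.L1.d u.1 v.1 = 1
  symm := ⟨fun u v h => by rw [P.L1.d_comm]; exact h⟩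
  loopless := ⟨fun u h => by simp [TreeLen.d_self] at h⟩

theorem tree_adj (u v : {g : G // P.L2.len g = 0}) : P.tree.Adj u v ↔ P.L1.d u.1 v.1 = 1 := Iff.rfl

theorem d2_zero (u v : {g : G // P.L2.len g = 0}) : P.L2.d u.1 v.1 = 0 := by
  have := P.L2.len_mul u.1⁻¹ v.1
  rw [P.L2.len_inv, u.2, v.2] at this
  exact Nat.le_zero.mp this

theorem tree_ext (hP : P.Free) (u v : {g : G // P.L2.len g = 0}) (h : P.L1.d u.1 v.1 = 0) :
    u = v := Subtype.ext (hP.ext h (P.d2_zero u v))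

/-- the projection to the first tree -/
noncomputable def pr (g : G) : {g : G // P.L2.len g = 0} :=
  ⟨(P.realize g 1).choose, by
    have := (P.realize g 1).choose_spec.2
    rwa [TreeLen.d_comm, TreeLen.d_one] at this⟩

theorem d_pr (g : G) : P.L1.d (P.pr g).1 g = 0 := (P.realize g 1).choose_spec.1

theorem d_pr_pr (x y : G) : P.L1.d (P.pr x).1 (P.pr y).1 = P.L1.d x y :=
  P.L1.d_congr _ _ _ _ (P.d_pr x) (P.d_pr y)

theorem tree_connected (hP : P.Free) : P.tree.Connected := by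
  have : Nonempty {g : G // P.L2.len g = 0} := ⟨⟨1, P.L2.len_one⟩⟩
  refine ⟨fun u v => ?_⟩
  induction h : P.L1.d u.1 v.1 generalizing u with
  | zero => rw [P.tree_ext hP u v h]
  | succ n ih =>
    obtain ⟨w, h1, h2⟩ := P.L1.d_step _ _ n h
    have a : P.tree.Adj u (P.pr w) := by
      rw [tree_adj, P.L1.d_congr _ _ _ _ (P.L1.d_self u.1) (P.d_pr w), h1]
    refine a.reachable.trans (ih (P.pr w) ?_)
    rw [P.L1.d_congr _ _ _ _ (P.d_pr w) (P.L1.d_self v.1), h2]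

theorem tree_path (hP : P.Free) {u v : {g : G // P.L2.len g = 0}} (p : P.tree.Walk u v)
    (hp : p.IsPath) : P.L1.d u.1 v.1 = p.length := by
  induction p with
  | nil => simp [TreeLen.d_self]
  | @cons u w v h p ih =>
    rw [SimpleGraph.Walk.cons_isPath_iff] at hp
    have e := ih hp.1
    have h' : P.L1.d u.1 w.1 = 1 := h
    have par := P.L1.d_par u.1 w.1 v.1
    have t1 := P.L1.d_tri u.1 w.1 v.1
    have t2 := P.L1.d_tri w.1 u.1 v.1
    have c := P.L1.d_comm u.1 w.1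
    rw [SimpleGraph.Walk.length_cons]
    by_contra hc
    cases p with
    | nil =>
      simp only [SimpleGraph.Walk.length_nil] at hc
      omega
    | @cons _ w' _ h2 q =>
      rw [SimpleGraph.Walk.length_cons] at e hc
      have h2' : P.L1.d w.1 w'.1 = 1 := h2
      have t3 := P.L1.d_tri w.1 w'.1 v.1
      have le : ∀ {a b : {g : G // P.L2.len g = 0}} (r : P.tree.Walk a b),
          P.L1.d a.1 b.1 ≤ r.length := by
        intro a b r
        induction r with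
        | nil => simp [TreeLen.d_self]
        | @cons a a' b h3 r ih =>
          have h3' : P.L1.d a.1 a'.1 = 1 := h3
          have := P.L1.d_tri a.1 a'.1 b.1
          rw [SimpleGraph.Walk.length_cons]
          omega
      have l := le q
      have := P.L1.lower_unique w.1 v.1 u.1 w'.1 q.length e (by omega) h2' (by omega) (by omega)
      have e2 := P.tree_ext hP u w' this
      subst e2
      exact hp.2 (by simp)

theorem tree_isTree (hP : P.Free) : P.tree.IsTree := by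
  refine ⟨P.tree_connected hP, fun v c hc => ?_⟩
  cases c with
  | nil => exact hc.ne_nil rfl
  | @cons _ w _ h p =>
    have h3 := hc.three_le_length
    rw [SimpleGraph.Walk.cons_isCycle_iff] at hc
    have e := P.tree_path hP p hc.1
    have h' : P.L1.d v.1 w.1 = 1 := h
    rw [SimpleGraph.Walk.length_cons] at h3
    rw [P.L1.d_comm] at e
    omega

theorem tree_degree (u : {g : G // P.L2.len g = 0}) :
    (P.tree.neighborSet u).ncard = {s : G | P.L1.len s = 1 ∧ P.L2.len s = 0}.ncard := by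
  refine Set.ncard_congr (fun v _ => u.1⁻¹ * v.1) (fun v hv => ⟨hv, P.d2_zero u v⟩)
    (fun v w _ _ h => Subtype.ext (mul_left_cancel h)) ?_
  rintro s ⟨h1, h2⟩
  have := P.L2.len_mul u.1 s
  rw [u.2, h2] at this
  exact ⟨⟨u.1 * s, Nat.le_zero.mp this⟩, by simpa [tree_adj, TreeLen.d] using h1, by simp⟩

/-- the Cayley graph is the product of the two trees -/
theorem cayley_iso (hP : P.Free) :
    Nonempty (SimpleGraph.mulCayley S ≃g P.tree.boxProd P.swap.tree) := by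
  have inj : Function.Injective fun g : G => (P.pr g, P.swap.pr g) := by
    intro x y h
    have a : P.pr x = P.pr y := congrArg Prod.fst h
    have b : P.swap.pr x = P.swap.pr y := congrArg Prod.snd h
    have a' := P.d_pr_pr x y
    have b' := P.swap.d_pr_pr x y
    rw [a, TreeLen.d_self] at a'
    rw [b, TreeLen.d_self] at b'
    exact hP.ext a'.symm b'.symm
  have surj : Function.Surjective fun g : G => (P.pr g, P.swap.pr g) := by
    rintro ⟨u, v⟩
    obtain ⟨x, h1, h2⟩ := P.realize u.1 v.1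
    refine ⟨x, Prod.ext (P.tree_ext hP _ _ ?_) (P.swap.tree_ext hP.swap _ _ ?_)⟩
    · exact (P.L1.d_congr _ _ _ _ (P.d_pr x) (P.L1.d_self _)).trans h1
    · exact (P.L2.d_congr _ _ _ _ (P.swap.d_pr x) (P.L2.d_self _)).trans h2
  refine ⟨⟨Equiv.ofBijective _ ⟨inj, surj⟩, fun {x y} => ?_⟩⟩
  rw [P.adj_iff hP]
  simp only [Equiv.ofBijective_apply, SimpleGraph.boxProd_adj, tree_adj]
  have a := P.d_pr_pr x y
  have b : P.swap.L1.d (P.swap.pr x).1 (P.swap.pr y).1 = P.L2.d x y := P.swap.d_pr_pr x y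
  have a' : P.pr x = P.pr y ↔ P.L1.d x y = 0 :=
    ⟨fun h => by rw [← a, h, TreeLen.d_self], fun h => P.tree_ext hP _ _ (a.trans h)⟩
  have b' : P.swap.pr x = P.swap.pr y ↔ P.L2.d x y = 0 :=
    ⟨fun h => by rw [← b, h, TreeLen.d_self], fun h => P.swap.tree_ext hP.swap _ _ (b.trans h)⟩
  rw [a, b, a', b']
  omega

end ProdData

end Pool.Agent.Lib.MP_7eef47_al
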