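import Mathlib
import Pool.Agent.Lib.MP_7eef47_al.Fix.Abs

set_option autoImplicit false

namespace Pool.Agent.Lib.MP_7eef47_al.Fix

open Polynomial

instance fact3 : Fact (Nat.Prime 3) := ⟨Nat.prime_three⟩

/-- the field with 27 elements -/
abbrev K : Type := GaloisField 3 3

theorem K_card : Nat.card K = 27 := GaloisField.card 3 3 (by norm_num)

theorem K_three : (3 : K) = 0 := by exact_mod_cast CharP.cast_eq_zero K 3

theorem K_two : (2 : K) ≠ 0 := fun h => by
  have : (1 : K) = 0 := by linear_combination K_three - h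
  exact one_ne_zero this

theorem K_sq (a b : K) (h : a ^ 2 + b ^ 2 = 0) : a = 0 ∧ b = 0 := by
  have := Fintype.ofFinite K
  have hn : ¬ IsSquare (-1 : K) := by
    rw [FiniteField.isSquare_neg_one_iff, ← Nat.card_eq_fintype_card, K_card]
    norm_num
  have hb : b = 0 := by
    by_contra hb
    exact hn ⟨a / b, by field_simp; linear_combination -h⟩
  rw [hb] at h
  exact ⟨by simpa using h, hb⟩

/-- the quaternion order -/
abbrev Qt : Type := QuaternionAlgebra K[X] (-1) 0 X

theorem re_mul (x y : Qt) :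
    (x * y).re = x.re * y.re - x.imI * y.imI + X * (x.imJ * y.imJ + x.imK * y.imK) := by
  change x.re * y.re + (-1) * x.imI * y.imI + X * x.imJ * y.imJ + 0 * X * x.imJ * y.imK -
    (-1) * X * x.imK * y.imK = _
  ring

theorem imI_mul (x y : Qt) :
    (x * y).imI = x.re * y.imI + x.imI * y.re + X * (x.imK * y.imJ - x.imJ * y.imK) := by
  change x.re * y.imI + x.imI * y.re + 0 * x.imI * y.imI - X * x.imJ * y.imK +
    X * x.imK * y.imJ = _
  ring

theorem imJ_mul (x y : Qt) :
    (x * y).imJ = x.re * y.imJ - x.imI * y.imK + x.imJ * y.re + x.imK * y.imI := by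
  change x.re * y.imJ + (-1) * x.imI * y.imK + x.imJ * y.re + 0 * x.imJ * y.imI -
    (-1) * x.imK * y.imI = _
  ring

theorem imK_mul (x y : Qt) :
    (x * y).imK = x.re * y.imK + x.imI * y.imJ - x.imJ * y.imI + x.imK * y.re := by
  change x.re * y.imK + x.imI * y.imJ + 0 * x.imI * y.imK - x.imJ * y.imI + x.imK * y.re = _
  ring

theorem re_star (x : Qt) : (star x).re = x.re := by simp
theorem imI_star (x : Qt) : (star x).imI = -x.imI := rfl
theorem imJ_star (x : Qt) : (star x).imJ = -x.imJ := rfl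
theorem imK_star (x : Qt) : (star x).imK = -x.imK := rfl
theorem re_smul (m : K[X]) (x : Qt) : (m • x).re = m * x.re := rfl
theorem imI_smul (m : K[X]) (x : Qt) : (m • x).imI = m * x.imI := rfl
theorem imJ_smul (m : K[X]) (x : Qt) : (m • x).imJ = m * x.imJ := rfl
theorem imK_smul (m : K[X]) (x : Qt) : (m • x).imK = m * x.imK := rfl
theorem re_one : (1 : Qt).re = 1 := rfl
theorem imI_one : (1 : Qt).imI = 0 := rfl
theorem imJ_one : (1 : Qt).imJ = 0 := rfl
theorem imK_one : (1 : Qt).imK = 0 := rfl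
theorem re_add (x y : Qt) : (x + y).re = x.re + y.re := rfl
theorem imI_add (x y : Qt) : (x + y).imI = x.imI + y.imI := rfl
theorem imJ_add (x y : Qt) : (x + y).imJ = x.imJ + y.imJ := rfl
theorem imK_add (x y : Qt) : (x + y).imK = x.imK + y.imK := rfl

theorem qext {x y : Qt} (h1 : x.re = y.re) (h2 : x.imI = y.imI) (h3 : x.imJ = y.imJ)
    (h4 : x.imK = y.imK) : x = y := QuaternionAlgebra.ext h1 h2 h3 h4

/-- the reduced norm -/
noncomputable def nrm (x : Qt) : K[X] := x.re ^ 2 + x.imI ^ 2 - X * (x.imJ ^ 2 + x.imK ^ 2)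

theorem nrm_mul (x y : Qt) : nrm (x * y) = nrm x * nrm y := by
  simp only [nrm, re_mul, imI_mul, imJ_mul, imK_mul]
  ring

theorem nrm_star (x : Qt) : nrm (star x) = nrm x := by
  simp only [nrm, re_star, imI_star, imJ_star, imK_star]
  ring

theorem nrm_smul (m : K[X]) (x : Qt) : nrm (m • x) = m ^ 2 * nrm x := by
  simp only [nrm, re_smul, imI_smul, imJ_smul, imK_smul]
  ring

theorem nrm_one : nrm 1 = 1 := by
  simp only [nrm, re_one, imI_one, imJ_one, imK_one]
  ring

theorem mul_star (x : Qt) : x * star x = nrm x • (1 : Qt) := by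
  apply qext <;> simp only [nrm, re_mul, imI_mul, imJ_mul, imK_mul, re_star, imI_star, imJ_star,
    imK_star, re_smul, imI_smul, imJ_smul, imK_smul, re_one, imI_one, imJ_one, imK_one] <;> ring

theorem star_mul' (x : Qt) : star x * x = nrm x • (1 : Qt) := by
  apply qext <;> simp only [nrm, re_mul, imI_mul, imJ_mul, imK_mul, re_star, imI_star, imJ_star,
    imK_star, re_smul, imI_smul, imJ_smul, imK_smul, re_one, imI_one, imJ_one, imK_one] <;> ring

/-- quaternions congruent to 1 modulo `j` whose norm only involves the places 1 and -1 -/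
def Mon : Submonoid Qt where
  carrier := {x | x.re.eval 0 = 1 ∧ x.imI.eval 0 = 0 ∧ ∃ n : ℕ, nrm x ∣ (1 - X ^ 2) ^ n}
  one_mem' := ⟨by simp, by simp, 0, by simp [nrm_one]⟩
  mul_mem' := by
    rintro x y ⟨a1, a2, a, h⟩ ⟨b1, b2, b, h'⟩
    refine ⟨by simp [a1, a2, b1], by simp [a1, a2, b2], a + b, ?_⟩
    rw [nrm_mul, pow_add]
    exact mul_dvd_mul h h'

theorem nrm_eval (x : Mon) : (nrm x.1).eval 0 = 1 := by
  simp [nrm, x.2.1, x.2.2.1]

theorem nrm_ne (x : Mon) : nrm x.1 ≠ 0 := fun h => by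
  have := nrm_eval x
  rw [h] at this
  simp at this

theorem re_ne (x : Mon) : x.1.re ≠ 0 := fun h => by
  have := x.2.1
  rw [h] at this
  simp at this

theorem star_mem {x : Qt} (h : x ∈ Mon) : star x ∈ Mon := by
  obtain ⟨a1, a2, a, h⟩ := h
  exact ⟨by rw [re_star, a1], by simp [a2], a, by rwa [nrm_star]⟩

theorem mem_of_smul {x y : Qt} (m : K[X]) (hm : m.eval 0 = 1) (h : x ∈ Mon) (e : x = m • y) :
    y ∈ Mon := by
  obtain ⟨a1, a2, a, h⟩ := h
  rw [e] at a1 a2 h
  rw [re_smul, eval_mul, hm, one_mul] at a1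
  rw [imI_smul, eval_mul, hm, one_mul] at a2
  rw [nrm_smul] at h
  exact ⟨a1, a2, a, (Dvd.intro_left _ rfl).trans h⟩

theorem smul_cancel {m : K[X]} (hm : m ≠ 0) {x y : Qt} (h : m • x = m • y) : x = y :=
  smul_right_injective Qt hm h

/-- proportionality -/
def propCon : Con Mon where
  r x y := ∃ m n : K[X], m ≠ 0 ∧ n ≠ 0 ∧ m • x.1 = n • y.1
  iseqv := by
    refine ⟨fun x => ⟨1, 1, one_ne_zero, one_ne_zero, rfl⟩, ?_, ?_⟩
    · rintro x y ⟨m, n, hm, hn, h⟩
      exact ⟨n, m, hn, hm, h.symm⟩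
    · rintro x y z ⟨m, n, hm, hn, h⟩ ⟨m', n', hm', hn', h'⟩
      refine ⟨m' * m, n * n', mul_ne_zero hm' hm, mul_ne_zero hn hn', ?_⟩
      rw [mul_smul, h, smul_comm, h', mul_smul]
  mul' := by
    rintro x y z w ⟨m, n, hm, hn, h⟩ ⟨m', n', hm', hn', h'⟩
    refine ⟨m * m', n * n', mul_ne_zero hm hm', mul_ne_zero hn hn', ?_⟩
    simp only [Submonoid.coe_mul]
    rw [← smul_mul_smul_comm, h, h', smul_mul_smul_comm]

/-- the lattice -/
def Gam : Type := propCon.Quotient

/-- conjugate of an element of the monoid -/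
noncomputable def starM (x : Mon) : Mon := ⟨star x.1, star_mem x.2⟩

noncomputable instance instGroupGam : Group Gam :=
  @groupOfIsUnit Gam (inferInstanceAs (Monoid propCon.Quotient)) (by
    intro g
    refine Con.induction_on (c := propCon) g fun x => ?_
    have hn := nrm_ne x
    have h1 : ((x * starM x : Mon) : propCon.Quotient) = ((1 : Mon) : propCon.Quotient) := by
      rw [Con.eq]
      refine ⟨1, nrm x.1, one_ne_zero, hn, ?_⟩
      rw [one_smul]
      exact mul_star x.1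
    have h2 : ((starM x * x : Mon) : propCon.Quotient) = ((1 : Mon) : propCon.Quotient) := by
      rw [Con.eq]
      refine ⟨1, nrm x.1, one_ne_zero, hn, ?_⟩
      rw [one_smul]
      exact star_mul' x.1
    exact (⟨⟨(x : propCon.Quotient), (starM x : propCon.Quotient), h1, h2⟩, rfl⟩ :
      IsUnit (x : propCon.Quotient)))

/-- the quotient map -/
noncomputable def mk (x : Mon) : Gam := (x : propCon.Quotient)

theorem mk_mul (x y : Mon) : mk (x * y) = mk x * mk y := rfl

theorem mk_one : mk 1 = 1 := rfl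

theorem mk_eq {x y : Mon} : mk x = mk y ↔ ∃ m n : K[X], m ≠ 0 ∧ n ≠ 0 ∧ m • x.1 = n • y.1 :=
  Con.eq (c := propCon)

theorem mk_surj (g : Gam) : ∃ x, mk x = g := Con.induction_on (c := propCon) g fun x => ⟨x, rfl⟩

theorem mk_star (x : Mon) : mk (starM x) = (mk x)⁻¹ := by
  apply eq_inv_of_mul_eq_one_left
  rw [← mk_mul, ← mk_one, mk_eq]
  refine ⟨1, nrm x.1, one_ne_zero, nrm_ne x, ?_⟩
  rw [one_smul]
  exact star_mul' x.1

theorem mk_pow (x : Mon) (n : ℕ) : mk (x ^ n) = mk x ^ n := by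
  induction n with
  | zero => simp [mk_one]
  | succ n ih => rw [pow_succ, pow_succ, mk_mul, ih]

theorem mk_eq_of_smul {x y : Mon} (m : K[X]) (h : x.1 = m • y.1) : mk x = mk y := by
  refine mk_eq.mpr ⟨1, m, one_ne_zero, ?_, by simpa using h⟩
  rintro rfl
  exact re_ne x (by rw [h, re_smul, zero_mul])

/-- divisibility of a quaternion by a polynomial -/
def Dv (m : K[X]) (x : Qt) : Prop := ∃ y : Qt, x = m • y

theorem dv_iff (m : K[X]) (x : Qt) : Dv m x ↔ m ∣ x.re ∧ m ∣ x.imI ∧ m ∣ x.imJ ∧ m ∣ x.imK := by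
  constructor
  · rintro ⟨y, rfl⟩
    exact ⟨Dvd.intro _ rfl, Dvd.intro _ rfl, Dvd.intro _ rfl, Dvd.intro _ rfl⟩
  · rintro ⟨⟨a, ha⟩, ⟨b, hb⟩, ⟨c, hc⟩, ⟨d, hd⟩⟩
    exact ⟨⟨a, b, c, d⟩, qext ha hb hc hd⟩

theorem Dv.mul_left {m : K[X]} {x : Qt} (h : Dv m x) (y : Qt) : Dv m (y * x) := by
  obtain ⟨z, rfl⟩ := h
  exact ⟨y * z, by rw [mul_smul_comm]⟩

theorem Dv.mul_right {m : K[X]} {x : Qt} (h : Dv m x) (y : Qt) : Dv m (x * y) := by
  obtain ⟨z, rfl⟩ := h
  exact ⟨z * y, by rw [smul_mul_assoc]⟩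

theorem Dv.add {m : K[X]} {x y : Qt} (h : Dv m x) (h' : Dv m y) : Dv m (x + y) := by
  obtain ⟨z, rfl⟩ := h
  obtain ⟨w, rfl⟩ := h'
  exact ⟨z + w, by rw [smul_add]⟩

theorem Dv.of_dvd {m n : K[X]} {x : Qt} (h : Dv n x) (hmn : m ∣ n) : Dv m x := by
  obtain ⟨z, rfl⟩ := h
  obtain ⟨k, rfl⟩ := hmn
  exact ⟨k • z, by rw [mul_smul]⟩

/-- the prime element of a place -/
noncomputable def P (a : K) : K[X] := 1 - C a * X

theorem P_eval (a : K) : (P a).eval 0 = 1 := by simp [P]

section prime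

variable (a : K) [ha : Fact (a * a = 1)]

theorem a_ne : a ≠ 0 := fun h => by
  have := ha.out
  rw [h] at this
  simp at this

theorem P_assoc : Associated (X - C a) (P a) := by
  have hu : IsUnit (C (-a) : K[X]) := isUnit_C.mpr (neg_ne_zero.mpr (a_ne a)).isUnit
  refine ⟨hu.unit, ?_⟩
  have : (C a * C a : K[X]) = 1 := by rw [← C_mul, ha.out, C_1]
  rw [hu.unit_spec, P, C_neg]
  linear_combination this

theorem P_prime : Prime (P a) := (P_assoc a).prime (prime_X_sub_C a)

theorem P_dvd (f : K[X]) : P a ∣ f ↔ f.eval a = 0 := by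
  rw [← (P_assoc a).dvd_iff_dvd_left, dvd_iff_isRoot, IsRoot.def]

theorem dv_of_smul {k : ℕ} {t : K[X]} (ht : ¬ P a ∣ t) {x : Qt} (h : Dv (P a ^ k) (t • x)) :
    Dv (P a ^ k) x := by
  have hc : IsCoprime (P a ^ k) t :=
    IsCoprime.pow_left ((P_prime a).irreducible.coprime_iff_not_dvd.mpr ht)
  rw [dv_iff] at h ⊢
  simp only [re_smul, imI_smul, imJ_smul, imK_smul] at h
  exact ⟨hc.dvd_of_dvd_mul_left h.1, hc.dvd_of_dvd_mul_left h.2.1, hc.dvd_of_dvd_mul_left h.2.2.1,
    hc.dvd_of_dvd_mul_left h.2.2.2⟩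

theorem dvd_of_dv_smul {k : ℕ} {t : K[X]} {x : Qt} (hx : ¬ Dv (P a) x)
    (h : Dv (P a ^ k) (t • x)) : P a ^ k ∣ t := by
  rw [dv_iff] at h hx
  simp only [re_smul, imI_smul, imJ_smul, imK_smul] at h
  have key : ∀ c : K[X], ¬ P a ∣ c → P a ^ k ∣ t * c → P a ^ k ∣ t := by
    intro c hc h
    have hc' : IsCoprime (P a ^ k) c :=
      IsCoprime.pow_left ((P_prime a).irreducible.coprime_iff_not_dvd.mpr hc)
    exact hc'.dvd_of_dvd_mul_right h
  by_cases h1 : P a ∣ x.re
  · by_cases h2 : P a ∣ x.imI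
    · by_cases h3 : P a ∣ x.imJ
      · exact key _ (fun h4 => hx ⟨h1, h2, h3, h4⟩) h.2.2.2
      · exact key _ h3 h.2.2.1
    · exact key _ h2 h.2.1
  · exact key _ h1 h.1

/-- the key annihilator lemma -/
theorem dv_four {k : ℕ} {x y z : Qt} (hy : ¬ Dv (P a) y)
    (h1 : Dv (P a ^ k) (star x * y)) (h2 : Dv (P a ^ k) (star y * z)) :
    Dv (P a ^ k) (star x * z) := by
  have two : ¬ P a ∣ 2 := by
    rw [P_dvd]
    simpa using K_two
  have hX : ¬ P a ∣ X := by
    rw [P_dvd]
    simpa using a_ne a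
  have key : ∀ w : Qt, ¬ P a ∣ (y * w).re → Dv (P a ^ k) (star x * z) := by
    intro w hw
    have ht : ¬ P a ∣ 2 * (y * w).re := fun h =>
      ((P_prime a).dvd_or_dvd h).elim two hw
    apply dv_of_smul a ht
    have e : y * w + star (y * w) = (2 * (y * w).re) • (1 : Qt) := by
      generalize y * w = u
      apply qext <;> simp only [re_add, imI_add, imJ_add, imK_add, re_star, imI_star, imJ_star,
        imK_star, re_smul, imI_smul, imJ_smul, imK_smul, re_one, imI_one, imJ_one, imK_one] <;> ring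
    have e2 : (2 * (y * w).re) • (star x * z) =
        (star x * y) * (w * z) + (star x * star w) * (star y * z) := by
      calc (2 * (y * w).re) • (star x * z) = star x * ((2 * (y * w).re) • (1 : Qt)) * z := by
            rw [mul_smul_comm, smul_mul_assoc, mul_one]
        _ = star x * (y * w + star (y * w)) * z := by rw [e]
        _ = _ := by rw [star_mul]; noncomm_ring
    rw [e2]
    exact (h1.mul_right _).add (h2.mul_left _)
  rw [dv_iff] at hy
  by_cases h1 : P a ∣ y.re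
  · by_cases h2 : P a ∣ y.imI
    · by_cases h3 : P a ∣ y.imJ
      · refine key ⟨0, 0, 0, 1⟩ ?_
        rw [re_mul]
        simp only [mul_zero, sub_zero, zero_add, mul_one]
        exact fun h => ((P_prime a).dvd_or_dvd h).elim hX fun h4 => hy ⟨h1, h2, h3, h4⟩
      · refine key ⟨0, 0, 1, 0⟩ ?_
        rw [re_mul]
        simp only [mul_zero, sub_zero, zero_add, mul_one, add_zero]
        exact fun h => ((P_prime a).dvd_or_dvd h).elim hX h3
    · refine key ⟨0, -1, 0, 0⟩ ?_
      rw [re_mul]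
      simpa using h2
  · refine key 1 ?_
    simpa using h1

/-- the valuation -/
noncomputable def val (f : K[X]) : ℕ := multiplicity (P a) f

theorem val_mul {f g : K[X]} (hf : f ≠ 0) (hg : g ≠ 0) : val a (f * g) = val a f + val a g :=
  multiplicity_mul (P_prime a) (FiniteMultiplicity.of_prime_left (P_prime a) (mul_ne_zero hf hg))

theorem le_val {f : K[X]} (hf : f ≠ 0) (k : ℕ) : P a ^ k ∣ f ↔ k ≤ val a f :=
  (FiniteMultiplicity.of_prime_left (P_prime a) hf).pow_dvd_iff_le_multiplicity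

theorem val_pow (k : ℕ) : val a (P a ^ k) = k := multiplicity_pow_self_of_prime (P_prime a) k

theorem val_one : val a 1 = 0 := multiplicity_of_one_right (P_prime a).not_isUnit

omit ha in
theorem val_self : val a (P a) = 1 := multiplicity_self

omit ha in
theorem val_eq_zero (f : K[X]) : val a f = 0 ↔ ¬ P a ∣ f := multiplicity_eq_zero

/-- valuation of the norm -/
noncomputable def vN (x : Mon) : ℕ := val a (nrm x.1)

theorem vN_mul (x y : Mon) : vN a (x * y) = vN a x + vN a y := by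
  simp only [vN, Submonoid.coe_mul, nrm_mul]
  exact val_mul a (nrm_ne x) (nrm_ne y)

omit ha in
theorem vN_star (x : Mon) : vN a (starM x) = vN a x := by
  simp [vN, starM, nrm_star]

theorem val_sq {m : K[X]} (hm : m ≠ 0) : val a (m ^ 2) = 2 * val a m := by
  rw [sq, val_mul a hm hm]; ring

theorem vN_smul {x y : Mon} {m n : K[X]} (hm : m ≠ 0) (hn : n ≠ 0) (h : m • x.1 = n • y.1) :
    2 * val a m + vN a x = 2 * val a n + vN a y := by
  have := congrArg (fun q : Qt => val a (nrm q)) h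
  simp only [nrm_smul] at this
  rw [val_mul a (pow_ne_zero 2 hm) (nrm_ne x), val_mul a (pow_ne_zero 2 hn) (nrm_ne y),
    val_sq a hm, val_sq a hn] at this
  exact this

/-- the tree length at a place -/
noncomputable def len (g : Gam) : ℕ := sInf {k | ∃ x : Mon, mk x = g ∧ vN a x = k}

omit ha in
theorem len_le (x : Mon) : len a (mk x) ≤ vN a x := Nat.sInf_le ⟨x, rfl, rfl⟩

omit ha in
theorem exists_len (g : Gam) : ∃ x : Mon, mk x = g ∧ vN a x = len a g := by
  obtain ⟨x, hx⟩ := mk_surj g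
  exact Nat.sInf_mem (s := {k | ∃ x : Mon, mk x = g ∧ vN a x = k}) ⟨_, x, hx, rfl⟩

theorem len_prim (x : Mon) (hx : ¬ Dv (P a) x.1) : len a (mk x) = vN a x := by
  refine le_antisymm (len_le a x) ?_
  obtain ⟨y, hy, hy'⟩ := exists_len a (mk x)
  obtain ⟨m, n, hm, hn, h⟩ := mk_eq.mp hy
  have h1 := vN_smul a hm hn h
  have h2 : Dv (P a ^ val a m) (n • x.1) := by
    rw [← h]
    exact Dv.of_dvd ⟨_, rfl⟩ ((le_val a hm _).mpr le_rfl)
  have h3 := dvd_of_dv_smul a hx h2
  have h4 := (le_val a hn _).mp h3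
  omega

theorem exists_decomp (x : Mon) :
    ∃ (k : ℕ) (y : Mon), x.1 = (P a ^ k) • y.1 ∧ ¬ Dv (P a) y.1 := by
  induction h : vN a x using Nat.strong_induction_on generalizing x with
  | _ n ih =>
    by_cases hx : Dv (P a) x.1
    · obtain ⟨y, hy⟩ := hx
      have hym : y ∈ Mon := mem_of_smul _ (P_eval a) x.2 hy
      have h1 := vN_smul a (x := x) (y := ⟨y, hym⟩) one_ne_zero (P_prime a).ne_zero
        (by simpa using hy)
      rw [val_self, val_one] at h1
      obtain ⟨k, z, hz, hz'⟩ := ih (vN a ⟨y, hym⟩) (by omega) ⟨y, hym⟩ rfl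
      refine ⟨k + 1, z, ?_, hz'⟩
      rw [hy, pow_succ', mul_smul, ← hz]
    · exact ⟨0, x, by simp, hx⟩

theorem len_decomp (x y : Mon) (k : ℕ) (h : x.1 = (P a ^ k) • y.1) (hy : ¬ Dv (P a) y.1) :
    len a (mk x) + 2 * k = vN a x := by
  rw [mk_eq_of_smul _ h, len_prim a y hy]
  have h1 := vN_smul a (x := x) (y := y) one_ne_zero (pow_ne_zero k (P_prime a).ne_zero)
    (by simpa using h)
  rw [val_pow, val_one] at h1
  omega

theorem exists_prim (g : Gam) : ∃ x : Mon, mk x = g ∧ ¬ Dv (P a) x.1 := by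
  obtain ⟨x, rfl⟩ := mk_surj g
  obtain ⟨k, y, h, hy⟩ := exists_decomp a x
  exact ⟨y, (mk_eq_of_smul _ h).symm, hy⟩

theorem len_one : len a 1 = 0 := by
  have := len_le a 1
  rw [mk_one] at this
  simpa [vN, nrm_one, val_one] using this

omit ha in
theorem len_inv (g : Gam) : len a g⁻¹ = len a g := by
  have key : ∀ g : Gam, len a g⁻¹ ≤ len a g := by
    intro g
    obtain ⟨x, rfl, hx⟩ := exists_len a g
    rw [← mk_star, ← hx, ← vN_star]
    exact len_le a _
  refine le_antisymm (key g) ?_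
  simpa using key g⁻¹

theorem len_mul (g h : Gam) : len a (g * h) ≤ len a g + len a h := by
  obtain ⟨x, rfl, hx⟩ := exists_len a g
  obtain ⟨y, rfl, hy⟩ := exists_len a h
  rw [← mk_mul, ← hx, ← hy, ← vN_mul]
  exact len_le a _

theorem len_par (x : Mon) : (len a (mk x) + vN a x) % 2 = 0 := by
  obtain ⟨k, y, h, hy⟩ := exists_decomp a x
  have := len_decomp a x y k h hy
  omega

theorem len_parity (g h : Gam) : (len a (g * h) + len a g + len a h) % 2 = 0 := by
  obtain ⟨x, rfl⟩ := mk_surj g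
  obtain ⟨y, rfl⟩ := mk_surj h
  have h1 := len_par a x
  have h2 := len_par a y
  have h3 := len_par a (x * y)
  rw [vN_mul, mk_mul] at h3
  omega

theorem len_four (g b c : Gam) :
    len a (g⁻¹ * c) + len a b ≤ max (len a (g⁻¹ * b) + len a c) (len a (b⁻¹ * c) + len a g) := by
  obtain ⟨x, rfl, hx⟩ := exists_prim a g
  obtain ⟨y, rfl, hy⟩ := exists_prim a b
  obtain ⟨z, rfl, hz⟩ := exists_prim a c
  simp only [← mk_star, ← mk_mul]
  obtain ⟨k1, w1, h1, hw1⟩ := exists_decomp a (starM x * y)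
  obtain ⟨k2, w2, h2, hw2⟩ := exists_decomp a (starM y * z)
  obtain ⟨k3, w3, h3, hw3⟩ := exists_decomp a (starM x * z)
  have e1 := len_decomp a _ _ _ h1 hw1
  have e2 := len_decomp a _ _ _ h2 hw2
  have e3 := len_decomp a _ _ _ h3 hw3
  rw [vN_mul, vN_star] at e1 e2 e3
  rw [len_prim a x hx, len_prim a y hy, len_prim a z hz]
  have hk : min k1 k2 ≤ k3 := by
    have d1 : Dv (P a ^ min k1 k2) (star x.1 * y.1) :=
      Dv.of_dvd ⟨_, h1⟩ (pow_dvd_pow _ (min_le_left _ _))
    have d2 : Dv (P a ^ min k1 k2) (star y.1 * z.1) :=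
      Dv.of_dvd ⟨_, h2⟩ (pow_dvd_pow _ (min_le_right _ _))
    have d3 := dv_four a hy d1 d2
    have h3' : star x.1 * z.1 = (P a ^ k3) • w3.1 := h3
    rw [h3'] at d3
    have := dvd_of_dv_smul a hw3 d3
    exact (pow_dvd_pow_iff (P_prime a).ne_zero (P_prime a).not_isUnit).mp this
  omega

end prime

end Pool.Agent.Lib.MP_7eef47_al.Fix
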