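import Mathlib
import Pool.Agent.Lib.MP_7eef47_al.Fix.Quat

set_option autoImplicit false

namespace Pool.Agent.Lib.MP_7eef47_al.Fix

open Polynomial

instance factOne : Fact ((1 : K) * 1 = 1) := ⟨by ring⟩
instance factNeg : Fact ((-1 : K) * (-1) = 1) := ⟨by ring⟩

/-- the quaternion `1 + c j + d k` -/
noncomputable def gq (c d : K) : Qt := ⟨1, 0, C c, C d⟩

theorem gq_re (c d : K) : (gq c d).re = 1 := rfl
theorem gq_imI (c d : K) : (gq c d).imI = 0 := rfl
theorem gq_imJ (c d : K) : (gq c d).imJ = C c := rfl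
theorem gq_imK (c d : K) : (gq c d).imK = C d := rfl

theorem nrm_gq (c d : K) : nrm (gq c d) = P (c ^ 2 + d ^ 2) := by
  simp only [nrm, P, gq_re, gq_imI, gq_imJ, gq_imK, C_add, C_pow]
  ring

theorem P_inj {a b : K} (h : P a = P b) : a = b := by
  have := congrArg (eval 1) h
  simpa [P] using this

section prime

variable (a : K) [ha : Fact (a * a = 1)]

theorem P_mul : P a * P (-a) = 1 - X ^ 2 := by
  have : (C a * C a : K[X]) = 1 := by rw [← C_mul, ha.out, C_1]
  simp only [P, C_neg]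
  linear_combination (-X ^ 2) * this

theorem gq_mem {c d : K} (h : c ^ 2 + d ^ 2 = a) : gq c d ∈ Mon :=
  ⟨by simp [gq_re], by simp [gq_imI], 1, by
    rw [nrm_gq, h, pow_one, ← P_mul a]; exact Dvd.intro _ rfl⟩

theorem exists_norm : ∃ c d : K, c ^ 2 + d ^ 2 = a := by
  rcases mul_self_eq_one_iff.mp ha.out with h | h
  · exact ⟨1, 0, by rw [h]; ring⟩
  · exact ⟨1, 1, by rw [h]; linear_combination K_three⟩

theorem factor (x : Qt) (h : P a ∣ nrm x) :
    ∃ c d : K, c ^ 2 + d ^ 2 = a ∧ Dv (P a) (star (gq c d) * x) := by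
  rw [P_dvd] at h
  simp only [nrm, eval_sub, eval_add, eval_pow, eval_mul, eval_X] at h
  have key : ∀ c d : K, x.re.eval a = a * (c * x.imJ.eval a + d * x.imK.eval a) →
      x.imI.eval a = a * (d * x.imJ.eval a - c * x.imK.eval a) →
      x.imJ.eval a = c * x.re.eval a + d * x.imI.eval a →
      x.imK.eval a = d * x.re.eval a - c * x.imI.eval a → Dv (P a) (star (gq c d) * x) := by
    intro c d h1 h2 h3 h4
    rw [dv_iff]
    simp only [P_dvd, re_mul, imI_mul, imJ_mul, imK_mul, re_star, imI_star, imJ_star, imK_star,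
      gq_re, gq_imI, gq_imJ, gq_imK, eval_sub, eval_add, eval_mul, eval_X, eval_neg, eval_C,
      eval_one, eval_zero]
    refine ⟨?_, ?_, ?_, ?_⟩
    · linear_combination h1
    · linear_combination h2
    · linear_combination h3
    · linear_combination h4
  generalize x.re.eval a = r at *
  generalize x.imI.eval a = s at *
  generalize x.imJ.eval a = t at *
  generalize x.imK.eval a = v at *
  have haa := ha.out
  by_cases hn : t ^ 2 + v ^ 2 = 0
  · obtain ⟨rfl, rfl⟩ := K_sq t v hn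
    obtain ⟨rfl, rfl⟩ := K_sq r s (by linear_combination h)
    obtain ⟨c, d, hcd⟩ := exists_norm a
    exact ⟨c, d, hcd, key c d (by ring) (by ring) (by ring) (by ring)⟩
  · refine ⟨a * (r * t - s * v) / (t ^ 2 + v ^ 2), a * (r * v + s * t) / (t ^ 2 + v ^ 2), ?_,
      key _ _ ?_ ?_ ?_ ?_⟩
    · field_simp
      linear_combination (a ^ 2 * (t ^ 2 + v ^ 2)) * h + (a * (t ^ 2 + v ^ 2) ^ 2) * haa
    · field_simp
      linear_combination (-(r * (t ^ 2 + v ^ 2))) * haa
    · field_simp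
      linear_combination (-(s * (t ^ 2 + v ^ 2))) * haa
    · field_simp
      linear_combination (-(a * t)) * h - (t * (t ^ 2 + v ^ 2)) * haa
    · field_simp
      linear_combination (-(a * v)) * h - (v * (t ^ 2 + v ^ 2)) * haa

theorem gq_prim (c d : K) : ¬ Dv (P a) (gq c d) := fun h => by
  have := ((dv_iff _ _).mp h).1
  rw [gq_re, P_dvd] at this
  simp at this

theorem len_gq (x : Mon) {c d : K} (hx : x.1 = gq c d) (h : c ^ 2 + d ^ 2 = a) :
    len a (mk x) = 1 := by
  rw [len_prim a x (hx ▸ gq_prim a c d), vN, hx, nrm_gq, h, val_self]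

omit ha in
theorem len_zero_of_not_dvd (x : Mon) (h : ¬ P a ∣ nrm x.1) : len a (mk x) = 0 := by
  have := len_le a x
  rw [vN, (val_eq_zero a _).mpr h] at this
  omega

theorem len_gq_neg (x : Mon) {c d : K} (hx : x.1 = gq c d) (h : c ^ 2 + d ^ 2 = -a) :
    len a (mk x) = 0 := by
  refine len_zero_of_not_dvd a x ?_
  rw [hx, nrm_gq, h, P_dvd]
  simp only [P, eval_sub, eval_one, eval_mul, eval_C, eval_X]
  intro h2
  exact K_two (by linear_combination h2 - ha.out)

theorem len_gq_zero (x : Mon) {c d : K} (hx : x.1 = gq c d) (h : c ^ 2 + d ^ 2 = 0) :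
    len a (mk x) = 0 := by
  refine len_zero_of_not_dvd a x ?_
  rw [hx, nrm_gq, h, P_dvd]
  simp [P]

theorem step_aux (g : Gam) (n : ℕ) (h : len a g = n + 1) :
    ∃ (π : Mon) (c d : K), π.1 = gq c d ∧ c ^ 2 + d ^ 2 = a ∧ len a ((mk π)⁻¹ * g) = n := by
  obtain ⟨x, rfl, hx⟩ := exists_prim a g
  rw [len_prim a x hx] at h
  have hd : P a ∣ nrm x.1 := by
    by_contra hc
    rw [vN, (val_eq_zero a _).mpr hc] at h
    omega
  obtain ⟨c, d, hπ, y, hy⟩ := factor a _ hd
  let π' : Mon := ⟨gq c d, gq_mem a hπ⟩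
  have hv : vN a π' = 1 := by
    simp only [vN, π', nrm_gq, hπ]; exact val_self a
  have hym : y ∈ Mon := mem_of_smul _ (P_eval a) (starM π' * x).2 hy
  have e := vN_smul a (x := starM π' * x) (y := ⟨y, hym⟩) one_ne_zero (P_prime a).ne_zero
    (by rw [one_smul]; exact hy)
  rw [val_self, val_one, vN_mul, vN_star, hv, h] at e
  have l1 : len a (mk π') ≤ 1 := hv ▸ len_le a π'
  have l2 : len a ((mk π')⁻¹ * mk x) ≤ n := by
    rw [← mk_star, ← mk_mul, mk_eq_of_smul (y := ⟨y, hym⟩) _ hy]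
    have := len_le a ⟨y, hym⟩
    omega
  have l3 := len_mul a (mk π') ((mk π')⁻¹ * mk x)
  rw [mul_inv_cancel_left, len_prim a x hx, h] at l3
  exact ⟨π', c, d, rfl, hπ, by omega⟩

/-- the tree of a place -/
noncomputable def T : TreeLen Gam where
  len := len a
  len_one := len_one a
  len_inv := len_inv a
  len_mul := len_mul a
  step g n h := by
    obtain ⟨π, c, d, h0, h1, h2⟩ := step_aux a g n h
    exact ⟨_, len_gq a π h0 h1, h2⟩
  parity := len_parity a
  four := len_four a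

end prime

theorem sum_sq (f g : K[X]) (h : f ≠ 0 ∨ g ≠ 0) :
    (f ^ 2 + g ^ 2).coeff (2 * max f.natDegree g.natDegree) ≠ 0 := by
  rw [coeff_add, coeff_pow_of_natDegree_le (le_max_left _ _),
    coeff_pow_of_natDegree_le (le_max_right _ _)]
  intro e
  obtain ⟨e1, e2⟩ := K_sq _ _ e
  rcases le_total f.natDegree g.natDegree with l | l
  · rw [max_eq_right l] at e1 e2
    have hg : g = 0 := leadingCoeff_eq_zero.mp e2
    subst hg
    rw [natDegree_zero] at l e1
    refine h.elim (fun h => h ?_) fun h => h rfl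
    rw [eq_C_of_natDegree_le_zero l, e1, C_0]
  · rw [max_eq_left l] at e1 e2
    have hg : f = 0 := leadingCoeff_eq_zero.mp e1
    subst hg
    rw [natDegree_zero] at l e2
    refine h.elim (fun h => h rfl) fun h => h ?_
    rw [eq_C_of_natDegree_le_zero l, e2, C_0]

theorem sum_sq_zero (f g : K[X]) (n : ℕ) (h : 2 * max f.natDegree g.natDegree < n) :
    (f ^ 2 + g ^ 2).coeff n = 0 := by
  apply coeff_eq_zero_of_natDegree_lt
  refine lt_of_le_of_lt ((natDegree_add_le _ _).trans (max_le ?_ ?_)) h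
  · exact natDegree_pow_le.trans (Nat.mul_le_mul_left 2 (le_max_left _ _))
  · exact natDegree_pow_le.trans (Nat.mul_le_mul_left 2 (le_max_right _ _))

theorem deg_zero (f g h l : K[X]) (e : (f ^ 2 + g ^ 2 - X * (h ^ 2 + l ^ 2)).natDegree = 0) :
    f.natDegree = 0 ∧ g.natDegree = 0 ∧ h = 0 ∧ l = 0 := by
  have z : ∀ n, (f ^ 2 + g ^ 2).coeff (n + 1) = (h ^ 2 + l ^ 2).coeff n := by
    intro n
    have := coeff_eq_zero_of_natDegree_lt (p := f ^ 2 + g ^ 2 - X * (h ^ 2 + l ^ 2)) (n := n + 1)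
      (by omega)
    rw [coeff_sub, coeff_X_mul] at this
    exact sub_eq_zero.mp this
  have fg : 0 < max f.natDegree g.natDegree → f ≠ 0 ∨ g ≠ 0 := by
    intro p
    by_contra c
    push Not at c
    simp [c.1, c.2] at p
  have hl : h = 0 ∧ l = 0 := by
    by_contra c
    have c' : h ≠ 0 ∨ l ≠ 0 := by tauto
    rcases le_or_gt (max f.natDegree g.natDegree) (max h.natDegree l.natDegree) with m | m
    · exact sum_sq h l c' (by rw [← z, sum_sq_zero f g _ (by omega)])
    · refine sum_sq f g (fg (by omega)) ?_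
      rw [show 2 * max f.natDegree g.natDegree = (2 * max f.natDegree g.natDegree - 1) + 1 by omega,
        z, sum_sq_zero h l _ (by omega)]
  have m : max f.natDegree g.natDegree = 0 := by
    by_contra c
    refine sum_sq f g (fg (by omega)) ?_
    rw [show 2 * max f.natDegree g.natDegree = (2 * max f.natDegree g.natDegree - 1) + 1 by omega,
      z, hl.1, hl.2]
    simp
  exact ⟨by omega, by omega, hl⟩

theorem exists_prim_both (g : Gam) :
    ∃ x : Mon, mk x = g ∧ ¬ Dv (P 1) x.1 ∧ ¬ Dv (P (-1)) x.1 := by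
  obtain ⟨x, rfl, hx⟩ := exists_prim 1 g
  obtain ⟨k, y, h, hy⟩ := exists_decomp (-1) x
  refine ⟨y, (mk_eq_of_smul _ h).symm, ?_, hy⟩
  rintro ⟨z, hz⟩
  exact hx ⟨P (-1) ^ k • z, by rw [h, hz, smul_comm]⟩

theorem eq_one_of_len (g : Gam) (h3 : len 1 g = 0) (h5 : len (-1) g = 0) : g = 1 := by
  obtain ⟨x, rfl, hx3, hx5⟩ := exists_prim_both g
  rw [len_prim 1 x hx3, vN, val_eq_zero] at h3
  rw [len_prim (-1) x hx5, vN, val_eq_zero] at h5
  obtain ⟨a1, a2, n, hn⟩ := x.2
  have c1 : IsCoprime (P 1) (nrm x.1) := (P_prime 1).irreducible.coprime_iff_not_dvd.mpr h3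
  have c2 : IsCoprime (P (-1)) (nrm x.1) := (P_prime (-1)).irreducible.coprime_iff_not_dvd.mpr h5
  have c3 : IsCoprime ((1 - X ^ 2) ^ n) (nrm x.1) := by
    rw [← P_mul 1]
    exact (c1.mul_left c2).pow_left
  have u : IsUnit (nrm x.1) := c3.isUnit_of_dvd' hn dvd_rfl
  obtain ⟨d1, d2, d3, d4⟩ := deg_zero _ _ _ _ (natDegree_eq_zero_of_isUnit u)
  have e : x = 1 := by
    apply Subtype.ext
    refine qext ?_ ?_ d3 d4
    · rw [eq_C_of_natDegree_eq_zero d1, coeff_zero_eq_eval_zero, a1]; rfl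
    · rw [eq_C_of_natDegree_eq_zero d2, coeff_zero_eq_eval_zero, a2, C_0]; rfl
  rw [e, mk_one]

/-- the generators -/
def gens : Set Gam := {g | ∃ (x : Mon) (c d : K), mk x = g ∧ x.1 = gq c d ∧
  (c ^ 2 + d ^ 2 = 0 ∨ c ^ 2 + d ^ 2 = 1 ∨ c ^ 2 + d ^ 2 = -1)}

theorem gens_finite : gens.Finite := by
  have h1 : (Set.range fun t : K × K => gq t.1 t.2).Finite := Set.finite_range _
  have h2 := Set.Finite.preimage (f := (Subtype.val : Mon → Qt)) Subtype.val_injective.injOn h1
  refine (h2.image mk).subset ?_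
  rintro g ⟨x, c, d, rfl, hx, -⟩
  exact ⟨x, ⟨(c, d), hx.symm⟩, rfl⟩

/-- the product structure -/
noncomputable def prodData : ProdData Gam gens where
  L1 := T 1
  L2 := T (-1)
  gen_le := by
    rintro s ⟨x, c, d, rfl, hx, h | h | h⟩
    · have a := len_gq_zero 1 x hx h
      have b := len_gq_zero (-1) x hx h
      change len 1 (mk x) + len (-1) (mk x) ≤ 1
      omega
    · have a := len_gq 1 x hx h
      have b := len_gq_neg (-1) x hx (by rw [h, neg_neg])
      change len 1 (mk x) + len (-1) (mk x) ≤ 1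
      omega
    · have a := len_gq_neg 1 x hx h
      have b := len_gq (-1) x hx h
      change len 1 (mk x) + len (-1) (mk x) ≤ 1
      omega
  step1 g n h := by
    obtain ⟨π, c, d, h0, h1, h2⟩ := step_aux 1 g n h
    exact ⟨mk π, ⟨π, c, d, rfl, h0, Or.inr (Or.inl h1)⟩,
      len_gq_neg (-1) π h0 (by rw [h1, neg_neg]), h2⟩
  step2 g n h := by
    obtain ⟨π, c, d, h0, h1, h2⟩ := step_aux (-1) g n h
    exact ⟨mk π, ⟨π, c, d, rfl, h0, Or.inr (Or.inr h1)⟩, len_gq_neg 1 π h0 h1, h2⟩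
  base g h3 h5 := by
    rw [eq_one_of_len g h3 h5]
    refine ⟨1, 0, 0, mk_one, qext rfl rfl ?_ ?_, Or.inl (by ring)⟩
    · rw [gq_imJ, C_0]; rfl
    · rw [gq_imK, C_0]; rfl

theorem prodData_free : prodData.Free := eq_one_of_len

theorem mk_eq_one_iff (x : Mon) : mk x = 1 ↔ x.1.imI = 0 ∧ x.1.imJ = 0 ∧ x.1.imK = 0 := by
  constructor
  · intro h
    rw [← mk_one, mk_eq] at h
    obtain ⟨m, n, hm, -, h⟩ := h
    have c2 := congrArg QuaternionAlgebra.imI h
    have c3 := congrArg QuaternionAlgebra.imJ h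
    have c4 := congrArg QuaternionAlgebra.imK h
    simp only [imI_smul, imJ_smul, imK_smul, OneMemClass.coe_one, imI_one, imJ_one, imK_one,
      mul_zero, mul_eq_zero] at c2 c3 c4
    exact ⟨c2.resolve_left hm, c3.resolve_left hm, c4.resolve_left hm⟩
  · rintro ⟨h1, h2, h3⟩
    have e : x.1 = x.1.re • (1 : Mon).1 := by
      apply qext <;> simp only [re_smul, imI_smul, imJ_smul, imK_smul, OneMemClass.coe_one, re_one,
        imI_one, imJ_one, imK_one, h1, h2, h3, mul_one, mul_zero]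
    rw [mk_eq_of_smul _ e, mk_one]

theorem two_ne : (2 : K[X]) ≠ 0 := fun h => K_two (by simpa using congrArg (eval 0) h)

theorem three_eq : (3 : K[X]) = 0 := by
  have : (C (3 : K) : K[X]) = 3 := rfl
  rw [← this, K_three, C_0]

theorem comm_iff (x y : Mon) : Commute (mk x) (mk y) ↔
    x.1.imI * y.1.imJ = x.1.imJ * y.1.imI ∧ x.1.imI * y.1.imK = x.1.imK * y.1.imI ∧
      x.1.imJ * y.1.imK = x.1.imK * y.1.imJ := by
  rw [Commute, SemiconjBy, ← mk_mul, ← mk_mul, mk_eq]
  constructor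
  · rintro ⟨m, n, hm, hn, h⟩
    have h1 := congrArg nrm h
    simp only [Submonoid.coe_mul, nrm_smul, nrm_mul] at h1
    have h2 : nrm x.1 * nrm y.1 ≠ 0 := mul_ne_zero (nrm_ne x) (nrm_ne y)
    have h3 : m ^ 2 = n ^ 2 := by
      apply mul_right_cancel₀ h2
      rw [h1]; ring
    rcases sq_eq_sq_iff_eq_or_eq_neg.mp h3 with h4 | h4
    · rw [h4] at h
      have e := smul_cancel hn h
      have c2 := congrArg QuaternionAlgebra.imI e
      have c3 := congrArg QuaternionAlgebra.imJ e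
      have c4 := congrArg QuaternionAlgebra.imK e
      simp only [Submonoid.coe_mul, imI_mul, imJ_mul, imK_mul] at c2 c3 c4
      refine ⟨mul_left_cancel₀ two_ne ?_, mul_left_cancel₀ two_ne ?_,
        mul_left_cancel₀ (mul_ne_zero two_ne X_ne_zero) ?_⟩
      · linear_combination c4
      · linear_combination -c3
      · linear_combination -c2
    · exfalso
      have c := congrArg QuaternionAlgebra.re h
      rw [h4, re_smul, re_smul, neg_mul, ← mul_neg] at c
      have c' := congrArg (eval 0) (mul_left_cancel₀ hn c)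
      rw [eval_neg, (x * y).2.1, (y * x).2.1] at c'
      exact K_two (by linear_combination -c')
  · rintro ⟨h1, h2, h3⟩
    refine ⟨1, 1, one_ne_zero, one_ne_zero, ?_⟩
    rw [one_smul, one_smul]
    apply qext <;> simp only [Submonoid.coe_mul, re_mul, imI_mul, imJ_mul, imK_mul]
    · ring
    · linear_combination (-2 * X) * h3
    · linear_combination (-2) * h2
    · linear_combination 2 * h1

theorem comm_trans (x y z : Gam) (hx : x ≠ 1) (h1 : Commute x y) (h2 : Commute x z) :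
    Commute y z := by
  obtain ⟨x, rfl⟩ := mk_surj x
  obtain ⟨y, rfl⟩ := mk_surj y
  obtain ⟨z, rfl⟩ := mk_surj z
  rw [comm_iff] at h1 h2 ⊢
  rw [Ne, mk_eq_one_iff] at hx
  obtain ⟨a1, a2, a3⟩ := h1
  obtain ⟨b1, b2, b3⟩ := h2
  generalize x.1.imI = e1 at *
  generalize x.1.imJ = e2 at *
  generalize x.1.imK = e3 at *
  generalize y.1.imI = f1 at *
  generalize y.1.imJ = f2 at *
  generalize y.1.imK = f3 at *
  generalize z.1.imI = g1 at *
  generalize z.1.imJ = g2 at *
  generalize z.1.imK = g3 at *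
  by_cases n1 : e1 = 0
  · by_cases n2 : e2 = 0
    · have n3 : e3 ≠ 0 := fun n3 => hx ⟨n1, n2, n3⟩
      refine ⟨mul_left_cancel₀ n3 ?_, mul_left_cancel₀ n3 ?_, mul_left_cancel₀ n3 ?_⟩
      · linear_combination (-g2) * a2 + g1 * a3 + f3 * b1
      · linear_combination (-g3) * a2 + f3 * b2
      · linear_combination (-g3) * a3 + f3 * b3
    · refine ⟨mul_left_cancel₀ n2 ?_, mul_left_cancel₀ n2 ?_, mul_left_cancel₀ n2 ?_⟩
      · linear_combination (-g2) * a1 + f2 * b1
      · linear_combination (-g3) * a1 - g1 * a3 + f2 * b2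
      · linear_combination f2 * b3 - g2 * a3
  · refine ⟨mul_left_cancel₀ n1 ?_, mul_left_cancel₀ n1 ?_, mul_left_cancel₀ n1 ?_⟩
    · linear_combination f1 * b1 - g1 * a1
    · linear_combination f1 * b2 - g1 * a2
    · linear_combination g3 * a1 - g2 * a2 + f1 * b3

theorem pow_form (x : Mon) (n : ℕ) : ∃ B : K[X], B.eval 0 = n ∧
    (x ^ n).1.imI = B * x.1.imI ∧ (x ^ n).1.imJ = B * x.1.imJ ∧ (x ^ n).1.imK = B * x.1.imK := by
  induction n with
  | zero => exact ⟨0, by simp, by simp, by simp, by simp⟩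
  | succ n ih =>
    obtain ⟨B, hB, e1, e2, e3⟩ := ih
    refine ⟨(x ^ n).1.re + B * x.1.re, ?_, ?_, ?_, ?_⟩
    · rw [eval_add, eval_mul, (x ^ n).2.1, x.2.1, hB]
      push_cast
      ring
    all_goals
      rw [pow_succ, Submonoid.coe_mul]
      simp only [imI_mul, imJ_mul, imK_mul, e1, e2, e3]
      ring

theorem cube_eq_one (g : Gam) (h : g ^ 3 = 1) : g = 1 := by
  obtain ⟨x, rfl⟩ := mk_surj g
  rw [← mk_pow, mk_eq_one_iff] at h
  rw [mk_eq_one_iff]
  simp only [pow_succ, pow_zero, one_mul, Submonoid.coe_mul, re_mul, imI_mul, imJ_mul,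
    imK_mul] at h
  obtain ⟨h1, h2, h3⟩ := h
  by_cases hD : (0 : K[X]) ^ 2 + x.1.imI ^ 2 - X * (x.1.imJ ^ 2 + x.1.imK ^ 2) = 0
  · obtain ⟨-, -, a, b⟩ := deg_zero _ _ _ _ (by rw [hD, natDegree_zero])
    rw [a, b] at hD
    exact ⟨by simpa using hD, a, b⟩
  · refine ⟨mul_left_cancel₀ hD ?_, mul_left_cancel₀ hD ?_, mul_left_cancel₀ hD ?_⟩
    · linear_combination -h1 + (x.1.re ^ 2 * x.1.imI) * three_eq
    · linear_combination -h2 + (x.1.re ^ 2 * x.1.imJ) * three_eq
    · linear_combination -h3 + (x.1.re ^ 2 * x.1.imK) * three_eq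

theorem pow_eq_one (g : Gam) (n : ℕ) (hn : 0 < n) (h : g ^ n = 1) : g = 1 := by
  induction n using Nat.strong_induction_on with
  | _ n ih =>
    by_cases h3 : 3 ∣ n
    · obtain ⟨m, rfl⟩ := h3
      refine ih m (by omega) (by omega) (cube_eq_one _ ?_)
      rw [← pow_mul, mul_comm, h]
    · obtain ⟨x, rfl⟩ := mk_surj g
      obtain ⟨B, hB, e1, e2, e3⟩ := pow_form x n
      rw [← mk_pow, mk_eq_one_iff, e1, e2, e3] at h
      have hB0 : B ≠ 0 := by
        rintro rfl
        rw [eval_zero] at hB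
        exact h3 ((CharP.cast_eq_zero_iff K 3 n).mp hB.symm)
      simp only [mul_eq_zero] at h
      rw [mk_eq_one_iff]
      exact ⟨h.1.resolve_left hB0, h.2.1.resolve_left hB0, h.2.2.resolve_left hB0⟩

theorem torsionFree (g : Gam) (h : IsOfFinOrder g) : g = 1 := by
  obtain ⟨n, hn, e⟩ := isOfFinOrder_iff_pow_eq_one.mp h
  exact pow_eq_one g n hn e

end Pool.Agent.Lib.MP_7eef47_al.Fix
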