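import Mathlib
import Pool.Agent.Lib.MP_7eef47_al.Fix.Main

set_option autoImplicit false

namespace Pool.Agent.Lib.MP_7eef47_al.Fix

open Polynomial

/-- the Frobenius automorphism -/
noncomputable def fr : K →+* K := frobenius K 3

theorem fr_apply (x : K) : fr x = x ^ 3 := rfl

theorem fr_three (x : K) : fr (fr (fr x)) = x := by
  have := Fintype.ofFinite K
  have h := FiniteField.pow_card x
  rw [← Nat.card_eq_fintype_card, K_card] at h
  simp only [fr_apply, ← pow_mul]
  exact h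

theorem fr_fix (x : K) : fr x = x ↔ x = 0 ∨ x = 1 ∨ x = -1 := by
  rw [fr_apply]
  constructor
  · intro h
    have : x * ((x - 1) * (x + 1)) = 0 := by linear_combination h
    rcases mul_eq_zero.mp this with h | h
    · exact Or.inl h
    · rcases mul_eq_zero.mp h with h | h
      · exact Or.inr (Or.inl (sub_eq_zero.mp h))
      · exact Or.inr (Or.inr (eq_neg_of_add_eq_zero_left h))
  · rintro (rfl | rfl | rfl) <;> ring

theorem exists_not_fix : ∃ s : K, fr s ≠ s := by
  by_contra h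
  push Not at h
  have h1 : (Set.univ : Set K) ⊆ {0, 1, -1} := fun x _ => (fr_fix x).mp (h x)
  have h2 := Set.ncard_le_ncard h1
  rw [Set.ncard_univ, K_card] at h2
  have h3 := Set.ncard_insert_le (0 : K) {1, -1}
  have h4 := Set.ncard_insert_le (1 : K) {-1}
  rw [Set.ncard_singleton] at h4
  omega

theorem map_three (f : K[X]) : ((f.map fr).map fr).map fr = f := by
  ext n
  simp only [coeff_map, fr_three]

/-- Frobenius on the coefficients -/
noncomputable def frQ (x : Qt) : Qt := ⟨x.re.map fr, x.imI.map fr, x.imJ.map fr, x.imK.map fr⟩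

theorem frQ_re (x : Qt) : (frQ x).re = x.re.map fr := rfl
theorem frQ_imI (x : Qt) : (frQ x).imI = x.imI.map fr := rfl
theorem frQ_imJ (x : Qt) : (frQ x).imJ = x.imJ.map fr := rfl
theorem frQ_imK (x : Qt) : (frQ x).imK = x.imK.map fr := rfl

theorem frQ_mul (x y : Qt) : frQ (x * y) = frQ x * frQ y := by
  apply qext <;> simp only [frQ_re, frQ_imI, frQ_imJ, frQ_imK, re_mul, imI_mul, imJ_mul, imK_mul,
    Polynomial.map_add, Polynomial.map_sub, Polynomial.map_mul, map_X]

theorem frQ_smul (m : K[X]) (x : Qt) : frQ (m • x) = m.map fr • frQ x := by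
  apply qext <;> simp only [frQ_re, frQ_imI, frQ_imJ, frQ_imK, re_smul, imI_smul, imJ_smul,
    imK_smul, Polynomial.map_mul]

theorem frQ_three (x : Qt) : frQ (frQ (frQ x)) = x := by
  apply qext <;> simp only [frQ_re, frQ_imI, frQ_imJ, frQ_imK, map_three]

theorem nrm_frQ (x : Qt) : nrm (frQ x) = (nrm x).map fr := by
  simp only [nrm, frQ_re, frQ_imI, frQ_imJ, frQ_imK, Polynomial.map_add, Polynomial.map_sub,
    Polynomial.map_mul, Polynomial.map_pow, map_X]

theorem frQ_gq (c d : K) : frQ (gq c d) = gq (fr c) (fr d) := by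
  apply qext <;> simp only [frQ_re, frQ_imI, frQ_imJ, frQ_imK, gq_re, gq_imI, gq_imJ, gq_imK,
    Polynomial.map_one, Polynomial.map_zero, map_C]

/-- Frobenius on the monoid -/
noncomputable def frM (x : Mon) : Mon := ⟨frQ x.1, by
  obtain ⟨a1, a2, n, h⟩ := x.2
  refine ⟨by rw [frQ_re, eval_zero_map, a1, map_one], by rw [frQ_imI, eval_zero_map, a2, map_zero],
    n, ?_⟩
  have := Polynomial.map_dvd fr h
  rw [nrm_frQ]
  simpa using this⟩

theorem mk_frM {x y : Mon} (h : mk x = mk y) : mk (frM x) = mk (frM y) := by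
  obtain ⟨m, n, hm, hn, h⟩ := mk_eq.mp h
  refine mk_eq.mpr ⟨m.map fr, n.map fr, map_ne_zero hm, map_ne_zero hn, ?_⟩
  change m.map fr • frQ x.1 = n.map fr • frQ y.1
  rw [← frQ_smul, ← frQ_smul, h]

/-- Frobenius on the group, as a function -/
noncomputable def frF (g : Gam) : Gam := mk (frM (mk_surj g).choose)

theorem frF_mk (x : Mon) : frF (mk x) = mk (frM x) := mk_frM (mk_surj (mk x)).choose_spec

/-- Frobenius on the group -/
noncomputable def sig : Gam →* Gam := MonoidHom.mk' frF (by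
  intro g h
  obtain ⟨x, rfl⟩ := mk_surj g
  obtain ⟨y, rfl⟩ := mk_surj h
  rw [← mk_mul, frF_mk, frF_mk, frF_mk, ← mk_mul]
  exact congrArg mk (Subtype.ext (frQ_mul x.1 y.1)))

theorem sig_mk (x : Mon) : sig (mk x) = mk (frM x) := frF_mk x

theorem sig_three (g : Gam) : sig (sig (sig g)) = g := by
  obtain ⟨x, rfl⟩ := mk_surj g
  rw [sig_mk, sig_mk, sig_mk]
  exact congrArg mk (Subtype.ext (frQ_three x.1))

section prime

variable (a : K) [ha : Fact (a * a = 1)]

theorem fr_a : fr a = a := (fr_fix a).mpr (Or.inr (mul_self_eq_one_iff.mp ha.out))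

theorem val_map_le {f : K[X]} (hf : f ≠ 0) : val a f ≤ val a (f.map fr) := by
  rw [← le_val a (map_ne_zero hf)]
  have := Polynomial.map_dvd fr ((le_val a hf _).mpr le_rfl)
  simpa [P, fr_a] using this

theorem val_map {f : K[X]} (hf : f ≠ 0) : val a (f.map fr) = val a f := by
  have h1 := val_map_le a hf
  have h2 := val_map_le a (f := f.map fr) (map_ne_zero hf)
  have h3 := val_map_le a (f := (f.map fr).map fr) (map_ne_zero (map_ne_zero hf))
  rw [map_three] at h3
  omega

theorem len_sig_le (g : Gam) : len a (sig g) ≤ len a g := by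
  obtain ⟨x, rfl, hx⟩ := exists_len a g
  rw [sig_mk, ← hx]
  refine (len_le a _).trans (le_of_eq ?_)
  change val a (nrm (frQ x.1)) = val a (nrm x.1)
  rw [nrm_frQ, val_map a (nrm_ne x)]

theorem len_sig (g : Gam) : len a (sig g) = len a g := by
  have h1 := len_sig_le a g
  have h2 := len_sig_le a (sig g)
  have h3 := len_sig_le a (sig (sig g))
  rw [sig_three] at h3
  omega

end prime

theorem mk_gq_inj {x y : Mon} {c d c' d' : K} (hx : x.1 = gq c d) (hy : y.1 = gq c' d')
    (h : mk x = mk y) : c = c' ∧ d = d' := by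
  obtain ⟨m, n, hm, hn, h⟩ := mk_eq.mp h
  rw [hx, hy] at h
  have c1 := congrArg QuaternionAlgebra.re h
  simp only [re_smul, gq_re, mul_one] at c1
  rw [c1] at h
  have e := smul_cancel hn h
  exact ⟨C_injective (congrArg QuaternionAlgebra.imJ e),
    C_injective (congrArg QuaternionAlgebra.imK e)⟩

theorem sig_fix_iff {x : Mon} {c d : K} (hx : x.1 = gq c d) :
    sig (mk x) = mk x ↔ fr c = c ∧ fr d = d := by
  have e : (frM x).1 = gq (fr c) (fr d) := by
    change frQ x.1 = _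
    rw [hx, frQ_gq]
  rw [sig_mk]
  refine ⟨fun h => mk_gq_inj e hx h, fun h => congrArg mk (Subtype.ext ?_)⟩
  rw [e, h.1, h.2, hx]

/-- the subgroup of fixed points -/
noncomputable def Hfix : Subgroup Gam := ProdData.fixSub sig

theorem count (a b : K) [Fact (a * a = 1)] [Fact (b * b = 1)] (hab : a = -b)
    (hc : (a = 1 ∧ b = -1) ∨ (a = -1 ∧ b = 1)) :
    {s : Hfix | len a s.1 = 1 ∧ len b s.1 = 0}.ncard =
      {t : K × K | t.1 ^ 2 + t.2 ^ 2 = a ∧ fr t.1 = t.1 ∧ fr t.2 = t.2}.ncard := by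
  symm
  refine Set.ncard_congr (fun t ht => ⟨mk ⟨gq t.1 t.2, gq_mem a ht.1⟩,
    (sig_fix_iff (x := ⟨gq t.1 t.2, gq_mem a ht.1⟩) rfl).mpr ht.2⟩) ?_ ?_ ?_
  · intro t ht
    exact ⟨len_gq a _ rfl ht.1, len_gq_neg b _ rfl (ht.1.trans hab)⟩
  · intro t u ht hu h
    have := mk_gq_inj (x := ⟨gq t.1 t.2, gq_mem a ht.1⟩) (y := ⟨gq u.1 u.2, gq_mem a hu.1⟩) rfl rfl
      (congrArg Subtype.val h)
    exact Prod.ext this.1 this.2
  · rintro ⟨s, hs⟩ ⟨h1, h2⟩
    have hS : s ∈ gens := by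
      refine prodData.mem_S prodData_free s ?_
      change len 1 s + len (-1) s = 1
      rcases hc with ⟨rfl, rfl⟩ | ⟨rfl, rfl⟩
      · exact (congrArg₂ (· + ·) h1 h2)
      · exact (congrArg₂ (· + ·) h2 h1)
    obtain ⟨x, c, d, rfl, hx, h⟩ := hS
    have hn : c ^ 2 + d ^ 2 = a := by
      by_contra hne
      have : len a (mk x) = 0 := by
        rcases h with h | h | h
        · exact len_gq_zero a x hx h
        · refine len_gq_neg a x hx ?_
          rcases hc with ⟨e, -⟩ | ⟨e, -⟩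
          · exact absurd (h.trans e.symm) hne
          · rw [h, e, neg_neg]
        · refine len_gq_neg a x hx ?_
          rcases hc with ⟨e, -⟩ | ⟨e, -⟩
          · rw [h, e]
          · exact absurd (h.trans e.symm) hne
      change len a (mk x) = 1 at h1
      omega
    exact ⟨(c, d), ⟨hn, (sig_fix_iff hx).mp hs⟩,
      Subtype.ext (congrArg mk (Subtype.ext hx.symm))⟩

theorem one_ne_neg : (1 : K) ≠ -1 := fun h => K_two (by linear_combination h)

theorem count_one :
    {t : K × K | t.1 ^ 2 + t.2 ^ 2 = 1 ∧ fr t.1 = t.1 ∧ fr t.2 = t.2}.ncard = 4 := by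
  have h := one_ne_neg
  have h2 := K_two
  refine Set.ncard_eq_four.mpr ⟨(1, 0), (-1, 0), (0, 1), (0, -1), by simp [h], by simp, by simp,
    by simp, by simp, by simp [h], ?_⟩
  ext ⟨c, d⟩
  simp only [Set.mem_ofPred_eq, fr_fix, Set.mem_insert_iff, Set.mem_singleton_iff, Prod.mk.injEq]
  constructor
  · rintro ⟨e, rfl | rfl | rfl, rfl | rfl | rfl⟩ <;> simp at e ⊢
  · rintro (⟨rfl, rfl⟩ | ⟨rfl, rfl⟩ | ⟨rfl, rfl⟩ | ⟨rfl, rfl⟩) <;> simp

theorem count_neg :
    {t : K × K | t.1 ^ 2 + t.2 ^ 2 = -1 ∧ fr t.1 = t.1 ∧ fr t.2 = t.2}.ncard = 4 := by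
  have h := one_ne_neg
  have h3 : (1 : K) + 1 = -1 := by linear_combination K_three
  refine Set.ncard_eq_four.mpr ⟨(1, 1), (1, -1), (-1, 1), (-1, -1), by simp [h], by simp [h],
    by simp [h], by simp [h], by simp [h], by simp [h], ?_⟩
  ext ⟨c, d⟩
  simp only [Set.mem_ofPred_eq, fr_fix, Set.mem_insert_iff, Set.mem_singleton_iff, Prod.mk.injEq]
  constructor
  · rintro ⟨e, rfl | rfl | rfl, rfl | rfl | rfl⟩ <;> simp [h] at e ⊢
  · rintro (⟨rfl, rfl⟩ | ⟨rfl, rfl⟩ | ⟨rfl, rfl⟩ | ⟨rfl, rfl⟩) <;> simp [h3]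

/-- the product structure of the subgroup -/
noncomputable def prodH : ProdData Hfix {h : Hfix | (h : Gam) ∈ gens} :=
  prodData.fixData sig prodData_free (len_sig 1) (len_sig (-1))

theorem prodH_free : prodH.Free := prodData.fixData_free sig prodData_free _ _

theorem degree_one (v : {g : Hfix // prodH.L2.len g = 0}) : (prodH.tree.neighborSet v).ncard = 4 :=
  (prodH.tree_degree v).trans ((count 1 (-1) (neg_neg _).symm (Or.inl ⟨rfl, rfl⟩)).trans count_one)

theorem degree_two (v : {g : Hfix // prodH.swap.L2.len g = 0}) :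
    (prodH.swap.tree.neighborSet v).ncard = 4 :=
  (prodH.swap.tree_degree v).trans ((count (-1) 1 rfl (Or.inr ⟨rfl, rfl⟩)).trans count_neg)

theorem Hfix_malnormal (g : Gam) (hg : g ∉ Hfix) (x : Gam) (hx : x ∈ Hfix)
    (hc : g⁻¹ * x * g ∈ Hfix) : x = 1 :=
  prodData.fix_malnormal sig gens_finite torsionFree comm_trans sig_three (len_sig 1)
    (len_sig (-1)) g hg x hx hc

theorem Hfix_not_sqc : ¬ StronglyQuasiconvex gens Hfix := by
  have h11 : (1 : K) ^ 2 + 1 ^ 2 = -1 := by linear_combination K_three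
  let qa : Mon := ⟨gq 1 1, gq_mem (-1) h11⟩
  obtain ⟨s, hs⟩ := exists_not_fix
  have hn : 1 + s ^ 2 ≠ 0 := fun h => one_ne_zero (K_sq 1 s (by linear_combination h)).1
  have hcd : ((1 - s ^ 2) / (1 + s ^ 2)) ^ 2 + (2 * s / (1 + s ^ 2)) ^ 2 = 1 := by
    field_simp
    ring
  let qb : Mon := ⟨gq _ _, gq_mem 1 hcd⟩
  have b1 : len 1 (mk qb) = 1 := len_gq 1 qb rfl hcd
  have b2 : len (-1) (mk qb) = 0 := len_gq_neg (-1) qb rfl (by rw [hcd, neg_neg])
  have a1 : len 1 (mk qa) = 0 := len_gq_neg 1 qa rfl h11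
  have a2 : len (-1) (mk qa) = 1 := len_gq (-1) qa rfl h11
  have hb := prodData.len1_pow prodData_free torsionFree (mk qb) b1 b2
  refine prodData.not_sqc_far prodData_free Hfix (mk qa)
    ((sig_fix_iff (x := qa) rfl).mpr ⟨map_one _, map_one _⟩) a1
    (prodData.len2_pow prodData_free torsionFree (mk qa) a2 a1) (mk qb) hb
    fun n h hh => prodData.L1.far sig (len_sig 1) (mk qb) hb ?_ n h hh
  intro e
  have e2 : prodData.L2.d (mk qb) (sig (mk qb)) = 0 := by
    have := len_mul (-1) (mk qb)⁻¹ (sig (mk qb))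
    rw [len_inv, len_sig, b2] at this
    exact Nat.le_zero.mp this
  obtain ⟨f1, f2⟩ := (sig_fix_iff (x := qb) rfl).mp (prodData_free.ext e e2).symm
  have h2 := K_two
  have e3 : s * (1 + (1 - s ^ 2) / (1 + s ^ 2)) = 2 * s / (1 + s ^ 2) := by
    field_simp
    ring
  have e4 : 1 + (1 - s ^ 2) / (1 + s ^ 2) ≠ 0 := by
    have : 1 + (1 - s ^ 2) / (1 + s ^ 2) = 2 / (1 + s ^ 2) := by
      field_simp
      ring
    rw [this]
    exact div_ne_zero h2 hn
  have e5 := congrArg fr e3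
  rw [map_mul, map_add, map_one, f1, f2, ← e3] at e5
  exact hs (mul_right_cancel₀ e4 e5)

end Pool.Agent.Lib.MP_7eef47_al.Fix
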