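import Mathlib
import Pool.Agent.Lib.MP_7eef47_al.Fix.Frob

set_option autoImplicit false

namespace Pool.Agent.Lib.MP_7eef47_al.Fix

theorem boxProd_one_end {V W : Type} (A : SimpleGraph V) (B : SimpleGraph W) (hA : A.Connected)
    (hB : B.Connected) [Infinite V] [Infinite W] (F : Set (V × W)) (hF : F.Finite) :
    ∃ F' : Set (V × W), F'.Finite ∧ ∀ x ∉ F', ∀ y ∉ F',
      ∃ p : (A.boxProd B).Walk x y, ∀ z ∈ p.support, z ∉ F := by
  obtain ⟨u, hu⟩ := (hF.image Prod.fst).infinite_compl.nonempty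
  obtain ⟨v, hv⟩ := (hF.image Prod.snd).infinite_compl.nonempty
  have right : ∀ (a : V) (b b' : W), a ∉ Prod.fst '' F →
      ∃ p : (A.boxProd B).Walk (a, b) (a, b'), ∀ z ∈ p.support, z ∉ F := by
    intro a b b' ha
    obtain ⟨w⟩ := hB b b'
    refine ⟨w.boxProdRight A a, fun z hz hzF => ha ⟨z, hzF, ?_⟩⟩
    have hz' : z ∈ (w.map (A.boxProdRight B a).toHom).support := hz
    rw [SimpleGraph.Walk.support_map, List.mem_map] at hz'
    obtain ⟨c, -, rfl⟩ := hz'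
    rfl
  have left : ∀ (a a' : V) (b : W), b ∉ Prod.snd '' F →
      ∃ p : (A.boxProd B).Walk (a, b) (a', b), ∀ z ∈ p.support, z ∉ F := by
    intro a a' b hb
    obtain ⟨w⟩ := hA a a'
    refine ⟨w.boxProdLeft B b, fun z hz hzF => hb ⟨z, hzF, ?_⟩⟩
    have hz' : z ∈ (w.map (A.boxProdLeft B b).toHom).support := hz
    rw [SimpleGraph.Walk.support_map, List.mem_map] at hz'
    obtain ⟨c, -, rfl⟩ := hz'
    rfl
  have key : ∀ x ∉ (Prod.fst '' F) ×ˢ (Prod.snd '' F),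
      ∃ p : (A.boxProd B).Walk x (u, v), ∀ z ∈ p.support, z ∉ F := by
    rintro ⟨a, b⟩ hx
    by_cases ha : a ∈ Prod.fst '' F
    · obtain ⟨p, hp⟩ := left a u b fun hb => hx ⟨ha, hb⟩
      obtain ⟨q, hq⟩ := right u b v hu
      exact ⟨p.append q, fun z hz =>
        ((SimpleGraph.Walk.mem_support_append_iff p q).mp hz).elim (hp z) (hq z)⟩
    · obtain ⟨p, hp⟩ := right a b v ha
      obtain ⟨q, hq⟩ := left a u v hv
      exact ⟨p.append q, fun z hz =>
        ((SimpleGraph.Walk.mem_support_append_iff p q).mp hz).elim (hp z) (hq z)⟩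
  refine ⟨_, (hF.image Prod.fst).prod (hF.image Prod.snd), fun x hx y hy => ?_⟩
  obtain ⟨p, hp⟩ := key x hx
  obtain ⟨q, hq⟩ := key y hy
  refine ⟨p.append q.reverse, fun z hz =>
    ((SimpleGraph.Walk.mem_support_append_iff p q.reverse).mp hz).elim (hp z) fun h => hq z ?_⟩
  simpa using h

theorem one_end_of_iso {U V : Type} {A : SimpleGraph U} {B : SimpleGraph V} (e : A ≃g B)
    (h : ∀ F : Set V, F.Finite → ∃ F' : Set V, F'.Finite ∧ ∀ x ∉ F', ∀ y ∉ F',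
      ∃ p : B.Walk x y, ∀ z ∈ p.support, z ∉ F) (F : Set U) (hF : F.Finite) :
    ∃ F' : Set U, F'.Finite ∧ ∀ x ∉ F', ∀ y ∉ F', ∃ p : A.Walk x y, ∀ z ∈ p.support, z ∉ F := by
  obtain ⟨F', h1, h2⟩ := h (e '' F) (hF.image e)
  refine ⟨e ⁻¹' F', h1.preimage e.injective.injOn, fun x hx y hy => ?_⟩
  obtain ⟨p, hp⟩ := h2 (e x) hx (e y) hy
  refine ⟨(p.map e.symm.toHom).copy (e.symm_apply_apply x) (e.symm_apply_apply y),
    fun z hz hzF => ?_⟩
  rw [SimpleGraph.Walk.support_copy, SimpleGraph.Walk.support_map, List.mem_map] at hz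
  obtain ⟨c, hc, rfl⟩ := hz
  exact hp c hc ⟨_, hzF, e.apply_symm_apply c⟩

theorem Hfix_torsionFree (g : Hfix) (h : IsOfFinOrder g) : g = 1 :=
  Subtype.ext (torsionFree g.1 (Hfix.subtype.isOfFinOrder h))

theorem sq10 : (1 : K) ^ 2 + 0 ^ 2 = 1 := by ring
theorem sq01 : (0 : K) ^ 2 + 1 ^ 2 = 1 := by ring
theorem sq11 : (1 : K) ^ 2 + 1 ^ 2 = -1 := by linear_combination K_three

/-- the quaternion `1 + j` -/
noncomputable def q10 : Mon := ⟨gq 1 0, gq_mem 1 sq10⟩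
/-- the quaternion `1 + k` -/
noncomputable def q01 : Mon := ⟨gq 0 1, gq_mem 1 sq01⟩
/-- the quaternion `1 + j + k` -/
noncomputable def q11 : Mon := ⟨gq 1 1, gq_mem (-1) sq11⟩

theorem q10_mem : mk q10 ∈ Hfix := (sig_fix_iff (x := q10) rfl).mpr ⟨map_one _, map_zero _⟩
theorem q01_mem : mk q01 ∈ Hfix := (sig_fix_iff (x := q01) rfl).mpr ⟨map_zero _, map_one _⟩
theorem q11_mem : mk q11 ∈ Hfix := (sig_fix_iff (x := q11) rfl).mpr ⟨map_one _, map_one _⟩

theorem Hfix_one_end (F : Set Hfix) (hF : F.Finite) :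
    ∃ F' : Set Hfix, F'.Finite ∧ ∀ x ∉ F', ∀ y ∉ F',
      ∃ p : (SimpleGraph.mulCayley {h : Hfix | (h : Gam) ∈ gens}).Walk x y,
        ∀ z ∈ p.support, z ∉ F := by
  obtain ⟨e⟩ := prodH.cayley_iso prodH_free
  have b1 : prodH.L1.len ⟨mk q10, q10_mem⟩ = 1 := len_gq 1 q10 rfl sq10
  have b2 : prodH.L2.len ⟨mk q10, q10_mem⟩ = 0 :=
    len_gq_neg (-1) q10 rfl (sq10.trans (neg_neg _).symm)
  have a1 : prodH.L1.len ⟨mk q11, q11_mem⟩ = 0 := len_gq_neg 1 q11 rfl sq11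
  have a2 : prodH.L2.len ⟨mk q11, q11_mem⟩ = 1 := len_gq (-1) q11 rfl sq11
  have i1 : Infinite {g : Hfix // prodH.L2.len g = 0} :=
    Infinite.of_surjective (fun g => prodH.L1.len g.1) fun n =>
      ⟨⟨_, prodH.L2.len_pow_zero _ b2 n⟩, prodH.len1_pow prodH_free Hfix_torsionFree _ b1 b2 n⟩
  have i2 : Infinite {g : Hfix // prodH.swap.L2.len g = 0} :=
    Infinite.of_surjective (fun g => prodH.L2.len g.1) fun n =>
      ⟨⟨_, prodH.L1.len_pow_zero _ a1 n⟩, prodH.len2_pow prodH_free Hfix_torsionFree _ a2 a1 n⟩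
  exact one_end_of_iso e (boxProd_one_end _ _ (prodH.tree_connected prodH_free)
    (prodH.swap.tree_connected prodH_free.swap)) F hF

theorem Hfix_not_virt_ab (A : Subgroup Hfix) (hA : A.FiniteIndex) :
    ∃ x ∈ A, ∃ y ∈ A, x * y ≠ y * x := by
  obtain ⟨m, hm, -, hx⟩ := A.exists_pow_mem_of_index_ne_zero hA.index_ne_zero ⟨mk q10, q10_mem⟩
  obtain ⟨n, hn, -, hy⟩ := A.exists_pow_mem_of_index_ne_zero hA.index_ne_zero ⟨mk q01, q01_mem⟩
  refine ⟨_, hx, _, hy, fun h => ?_⟩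
  have c : Commute (mk q10 ^ m) (mk q01 ^ n) := congrArg Subtype.val h
  have n1 : mk q10 ≠ 1 := fun e => by
    have := len_gq 1 q10 rfl sq10
    rw [e, len_one] at this
    omega
  have n2 : mk q01 ≠ 1 := fun e => by
    have := len_gq 1 q01 rfl sq01
    rw [e, len_one] at this
    omega
  have c1 := comm_trans _ _ _ (fun e => n1 (pow_eq_one _ m hm e)) c
    ((Commute.refl (mk q10)).pow_left m)
  have c2 := comm_trans _ _ _ (fun e => n2 (pow_eq_one _ n hn e)) c1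
    ((Commute.refl (mk q01)).pow_left n)
  have c3 := ((comm_iff q10 q01).mp c2).2.2
  simp [q10, q01, gq_imJ, gq_imK] at c3

/-- Frobenius as an automorphism -/
noncomputable def sigAut : Gam ≃* Gam where
  toFun := sig
  invFun g := sig (sig g)
  left_inv := sig_three
  right_inv := sig_three
  map_mul' := map_mul sig

end Pool.Agent.Lib.MP_7eef47_al.Fix
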